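import Mathlib

/-!
# Oscillatory integrals and phase selection for MP_45ee41_an
-/

set_option autoImplicit false

open MeasureTheory Set Filter Topology Complex

namespace Pool.Agent.Q165.Osc

/-- integration by parts bound -/
theorem ibp (A B γ κ σ : ℝ) (hA : 0 < A) (hAB : A ≤ B) (hγ0 : 0 ≤ γ) (hγ : γ ≤ 1) (hκ : 0 ≤ κ)
    (hσ : |σ| = 1)
    (G G' : ℝ → ℝ) (hG : ∀ s, HasDerivAt G (G' s) s) (hG'c : Continuous G')
    (hb : ∀ s, |G s| ≤ 1) (hb' : ∀ s, |G' s| ≤ κ) :
    ‖∫ s in A..B, Complex.exp (I * ((γ * Real.log s : ℝ) : ℂ)) / (s : ℂ) * (G s : ℂ) *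
        Complex.exp (I * ((σ * s : ℝ) : ℂ))‖ ≤ (4 + κ * (B - A)) / A := by
  have hB : 0 < B := lt_of_lt_of_le hA hAB
  have hσ0 : (σ : ℂ) ≠ 0 := by
    intro h
    have : σ = 0 := by exact_mod_cast h
    rw [this] at hσ
    simp at hσ
  have hIσ : I * (σ : ℂ) ≠ 0 := mul_ne_zero I_ne_zero hσ0
  set E : ℝ → ℂ := fun s => Complex.exp (I * ((γ * Real.log s : ℝ) : ℂ)) with hE
  have hEn : ∀ s, ‖E s‖ = 1 := by
    intro s
    rw [hE]
    simp only
    rw [mul_comm, Complex.norm_exp_ofReal_mul_I]
  have hEd : ∀ s : ℝ, 0 < s → HasDerivAt E (E s * (I * ((γ / s : ℝ) : ℂ))) s := by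
    intro s hs
    have h1 : HasDerivAt (fun s : ℝ => γ * Real.log s) (γ * s⁻¹) s :=
      (Real.hasDerivAt_log hs.ne').const_mul γ
    have h2 := (h1.ofReal_comp.const_mul I).cexp
    exact h2.congr_deriv (by simp only [hE, div_eq_mul_inv])
  set u : ℝ → ℂ := fun s => E s / (s : ℂ) * (G s : ℂ) with hu
  set u' : ℝ → ℂ := fun s => ((E s * (I * ((γ / s : ℝ) : ℂ))) * (s : ℂ) - E s * 1) / (s : ℂ) ^ 2 * (G s : ℂ)
    + E s / (s : ℂ) * (G' s : ℂ) with hu'
  set v : ℝ → ℂ := fun s => Complex.exp (I * ((σ * s : ℝ) : ℂ)) / (I * σ) with hv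
  set v' : ℝ → ℂ := fun s => Complex.exp (I * ((σ * s : ℝ) : ℂ)) with hv'
  have hsub : ∀ s ∈ uIcc A B, 0 < s := by
    intro s hs
    rw [uIcc_of_le hAB] at hs
    exact lt_of_lt_of_le hA hs.1
  have hud : ∀ s ∈ uIcc A B, HasDerivAt u (u' s) s := by
    intro s hs
    have hs0 := hsub s hs
    have h1 : HasDerivAt (fun s : ℝ => (s : ℂ)) 1 s := by
      simpa using (hasDerivAt_id s).ofReal_comp
    have h2 := (hEd s hs0).div h1 (by exact_mod_cast hs0.ne')
    exact h2.mul (hG s).ofReal_comp
  have hvd : ∀ s ∈ uIcc A B, HasDerivAt v (v' s) s := by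
    intro s _
    have h1 : HasDerivAt (fun s : ℝ => σ * s) σ s := by
      simpa using (hasDerivAt_id s).const_mul σ
    have h2 := ((h1.ofReal_comp.const_mul I).cexp).div_const (I * σ)
    exact h2.congr_deriv (mul_div_cancel_right₀ _ hIσ)
  have hGc : Continuous G := continuous_iff_continuousAt.2 fun s => (hG s).continuousAt
  have hEc : ContinuousOn E (uIcc A B) := fun s hs => (hEd s (hsub s hs)).continuousAt.continuousWithinAt
  have hu'c : ContinuousOn u' (uIcc A B) := by
    rw [hu']
    have hid : ContinuousOn (fun s : ℝ => (s : ℂ)) (uIcc A B) := continuous_ofReal.continuousOn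
    have hne : ∀ s ∈ uIcc A B, (s : ℂ) ≠ 0 := fun s hs => by exact_mod_cast (hsub s hs).ne'
    have hgs : ContinuousOn (fun s : ℝ => ((γ / s : ℝ) : ℂ)) (uIcc A B) :=
      continuous_ofReal.comp_continuousOn
        (continuousOn_const.div continuousOn_id fun s hs => (hsub s hs).ne')
    refine ContinuousOn.add (ContinuousOn.mul (ContinuousOn.div ?_ (hid.pow 2)
      (fun s hs => pow_ne_zero 2 (hne s hs))) (continuous_ofReal.comp hGc).continuousOn)
      ((hEc.div hid hne).mul (continuous_ofReal.comp hG'c).continuousOn)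
    exact ((hEc.mul (continuousOn_const.mul hgs)).mul hid).sub (hEc.mul continuousOn_const)
  have hv'c : Continuous v' := by
    rw [hv']
    fun_prop
  have hibp := intervalIntegral.integral_mul_deriv_eq_deriv_mul hud hvd
    (hu'c.intervalIntegrable) (hv'c.intervalIntegrable _ _)
  have hvn : ∀ s, ‖v s‖ = 1 := by
    intro s
    rw [hv]
    simp only
    rw [norm_div, norm_mul, Complex.norm_I, Complex.norm_real, Real.norm_eq_abs, hσ, mul_comm I,
      Complex.norm_exp_ofReal_mul_I]
    norm_num
  have hun : ∀ s, 0 < s → ‖u s‖ ≤ 1 / s := by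
    intro s hs
    rw [hu]
    simp only
    rw [norm_mul, norm_div, hEn, Complex.norm_real, Complex.norm_real, Real.norm_eq_abs,
      Real.norm_eq_abs, abs_of_pos hs]
    exact mul_le_of_le_one_right (by positivity) (hb s)
  have hu'n : ∀ s, 0 < s → ‖u' s‖ ≤ 2 / s ^ 2 + κ / s := by
    intro s hs
    have hsc : (s : ℂ) ≠ 0 := by exact_mod_cast hs.ne'
    rw [hu']
    simp only
    refine (norm_add_le _ _).trans (add_le_add ?_ ?_)
    · have h1 : (E s * (I * ((γ / s : ℝ) : ℂ))) * (s : ℂ) - E s * 1 = E s * (I * γ - 1) := by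
        push_cast
        field_simp
      rw [h1, norm_mul, norm_div, norm_mul, hEn, one_mul, norm_pow, Complex.norm_real,
        Complex.norm_real, Real.norm_eq_abs, Real.norm_eq_abs, abs_of_pos hs]
      have h2 : ‖I * (γ : ℂ) - 1‖ ≤ 2 := by
        refine (norm_sub_le _ _).trans ?_
        rw [norm_mul, Complex.norm_I, Complex.norm_real, Real.norm_eq_abs, abs_of_nonneg hγ0,
          norm_one]
        linarith
      calc ‖I * (γ : ℂ) - 1‖ / s ^ 2 * |G s| ≤ ‖I * (γ : ℂ) - 1‖ / s ^ 2 * 1 :=
            mul_le_mul_of_nonneg_left (hb s) (by positivity)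
        _ ≤ 2 / s ^ 2 := by
            rw [mul_one]
            exact div_le_div_of_nonneg_right h2 (by positivity)
    · rw [norm_mul, norm_div, hEn, Complex.norm_real, Complex.norm_real, Real.norm_eq_abs,
        Real.norm_eq_abs, abs_of_pos hs]
      calc 1 / s * |G' s| ≤ 1 / s * κ := mul_le_mul_of_nonneg_left (hb' s) (by positivity)
        _ = κ / s := by ring
  have hint : ‖∫ s in A..B, u' s * v s‖ ≤ 2 / A + κ * (B - A) / A := by
    have h1 : ‖∫ s in A..B, u' s * v s‖ ≤ |∫ s in A..B, (2 / s ^ 2 + κ / A)| := by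
      refine intervalIntegral.norm_integral_le_abs_of_norm_le ?_ ?_
      · rw [uIoc_of_le hAB]
        refine (ae_restrict_iff' measurableSet_Ioc).2 (Eventually.of_forall fun s hs => ?_)
        have hs0 : 0 < s := hA.trans hs.1
        rw [norm_mul, hvn, mul_one]
        refine (hu'n s hs0).trans (add_le_add le_rfl ?_)
        exact div_le_div_of_nonneg_left hκ hA hs.1.le
      · refine ContinuousOn.intervalIntegrable ?_
        refine ContinuousOn.add (ContinuousOn.div continuousOn_const (continuousOn_id.pow 2)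
          fun s hs => pow_ne_zero 2 (hsub s hs).ne') continuousOn_const
    have h2 : ∫ s in A..B, (2 / s ^ 2 + κ / A) = (-2 / B + κ / A * B) - (-2 / A + κ / A * A) := by
      have h3 : ∀ s ∈ uIcc A B, HasDerivAt (fun s : ℝ => -2 / s + κ / A * s) (2 / s ^ 2 + κ / A) s := by
        intro s hs
        have hs0 := hsub s hs
        have h4 : HasDerivAt (fun s : ℝ => -2 / s) (2 / s ^ 2) s := by
          have := (hasDerivAt_inv hs0.ne').const_mul (-2)
          refine this.congr_deriv ?_
          ring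
        have h5 : HasDerivAt (fun s : ℝ => κ / A * s) (κ / A) s := by
          simpa using (hasDerivAt_id s).const_mul (κ / A)
        exact h4.add h5
      refine intervalIntegral.integral_eq_sub_of_hasDerivAt h3 ?_
      refine ContinuousOn.intervalIntegrable ?_
      refine ContinuousOn.add (ContinuousOn.div continuousOn_const (continuousOn_id.pow 2)
          fun s hs => pow_ne_zero 2 (hsub s hs).ne') continuousOn_const
    have h6 : 0 ≤ ∫ s in A..B, (2 / s ^ 2 + κ / A) := by
      refine intervalIntegral.integral_nonneg hAB fun s hs => ?_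
      have hs0 : 0 < s := lt_of_lt_of_le hA hs.1
      positivity
    rw [abs_of_nonneg h6, h2] at h1
    refine h1.trans ?_
    have h7 : 0 ≤ 2 / B := by positivity
    have h8 : (-2 / B + κ / A * B) - (-2 / A + κ / A * A) = 2 / A + κ * (B - A) / A - 2 / B := by
      ring
    rw [h8]
    linarith
  have hfin : ∫ s in A..B, u s * v' s = u B * v B - u A * v A - ∫ s in A..B, u' s * v s := hibp
  have hgoal : (∫ s in A..B, Complex.exp (I * ((γ * Real.log s : ℝ) : ℂ)) / (s : ℂ) * (G s : ℂ) *
        Complex.exp (I * ((σ * s : ℝ) : ℂ))) = ∫ s in A..B, u s * v' s := rfl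
  rw [hgoal, hfin]
  have h1 : ‖u B * v B‖ ≤ 1 / A := by
    rw [norm_mul, hvn, mul_one]
    exact (hun B hB).trans (one_div_le_one_div_of_le hA hAB)
  have h2 : ‖u A * v A‖ ≤ 1 / A := by
    rw [norm_mul, hvn, mul_one]
    exact hun A hA
  calc ‖u B * v B - u A * v A - ∫ s in A..B, u' s * v s‖
      ≤ ‖u B * v B - u A * v A‖ + ‖∫ s in A..B, u' s * v s‖ := norm_sub_le _ _
    _ ≤ (1 / A + 1 / A) + (2 / A + κ * (B - A) / A) :=
        add_le_add ((norm_sub_le _ _).trans (add_le_add h1 h2)) hint
    _ = (4 + κ * (B - A)) / A := by ring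

/-- lower bound for the sine integral -/
theorem sine_integral (A : ℝ) (hA : 1 ≤ A) : 43 / 96 ≤ ∫ s in (0 : ℝ)..A, Real.sin s / s := by
  have hA0 : (0 : ℝ) ≤ A := by linarith
  set K : ℝ → ℝ := fun s => (1 - Real.cos s) / s with hK
  have hsinc : ∀ a b : ℝ, IntervalIntegrable (fun s : ℝ => Real.sin s / s) volume a b := by
    intro a b
    have h := Real.continuous_sinc.intervalIntegrable (μ := volume) a b
    refine h.congr_ae ?_
    have h0 : ∀ᵐ s : ℝ ∂volume, s ≠ 0 := by
      rw [ae_iff]
      simp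
    filter_upwards [ae_restrict_of_ae h0] with s hs
    exact Real.sinc_of_ne_zero hs
  -- `(1 - cos s) / s ^ 2` is bounded by `1 / 2`
  have hbd : ∀ s : ℝ, 0 ≤ (1 - Real.cos s) / s ^ 2 ∧ (1 - Real.cos s) / s ^ 2 ≤ 1 / 2 := by
    intro s
    have h1 : Real.cos s ≤ 1 := Real.cos_le_one s
    have h2 : 1 - s ^ 2 / 2 ≤ Real.cos s := Real.one_sub_sq_div_two_le_cos
    refine ⟨div_nonneg (by linarith) (sq_nonneg s), ?_⟩
    rcases eq_or_ne s 0 with h | h
    · simp [h]
    · rw [div_le_iff₀ (by positivity)]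
      linarith
  have hq : ∀ a b : ℝ, IntervalIntegrable (fun s : ℝ => (1 - Real.cos s) / s ^ 2) volume a b := by
    intro a b
    have hm : Measurable fun s : ℝ => (1 - Real.cos s) / s ^ 2 := by fun_prop
    refine (intervalIntegrable_const (c := (1 / 2 : ℝ))).mono_fun
      hm.aestronglyMeasurable (Eventually.of_forall fun s => ?_)
    show ‖(1 - Real.cos s) / s ^ 2‖ ≤ ‖(1 / 2 : ℝ)‖
    rw [Real.norm_of_nonneg (hbd s).1, Real.norm_of_nonneg (by norm_num)]
    exact (hbd s).2
  have hcont : ContinuousOn K (Icc 0 A) := by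
    intro s _
    rcases eq_or_ne s 0 with h | h
    · subst h
      have h0 : K 0 = 0 := by simp [hK]
      refine ContinuousAt.continuousWithinAt ?_
      rw [ContinuousAt, h0]
      refine squeeze_zero_norm (a := fun s : ℝ => |s| / 2) (fun s => ?_) ?_
      · rcases eq_or_ne s 0 with h | h
        · simp [h, hK]
        · have h2 : K s = (1 - Real.cos s) / s ^ 2 * s := by
            rw [hK]
            field_simp
          rw [h2, norm_mul, Real.norm_of_nonneg (hbd s).1, Real.norm_eq_abs]
          have := mul_le_mul_of_nonneg_right (hbd s).2 (abs_nonneg s)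
          linarith
      · have : Tendsto (fun s : ℝ => |s| / 2) (𝓝 0) (𝓝 (|0| / 2)) :=
          ((continuous_abs).div_const 2).tendsto 0
        simpa using this
    · refine ContinuousAt.continuousWithinAt ?_
      exact ((continuous_const.sub Real.continuous_cos).continuousAt).div continuousAt_id h
  have hder : ∀ s ∈ Ioo (0 : ℝ) A, HasDerivAt K (Real.sin s / s - (1 - Real.cos s) / s ^ 2) s := by
    intro s hs
    have h1 : HasDerivAt (fun s : ℝ => 1 - Real.cos s) (Real.sin s) s := by
      have := (Real.hasDerivAt_cos s).const_sub 1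
      simpa using this
    have h2 := h1.div (hasDerivAt_id s) hs.1.ne'
    refine h2.congr_deriv ?_
    have h3 := hs.1.ne'
    show (Real.sin s * s - (1 - Real.cos s) * 1) / s ^ 2 = _
    field_simp
  have hFTC := intervalIntegral.integral_eq_sub_of_hasDerivAt_of_le hA0 hcont hder
    ((hsinc 0 A).sub (hq 0 A))
  rw [intervalIntegral.integral_sub (hsinc 0 A) (hq 0 A)] at hFTC
  have hK0 : K 0 = 0 := by simp [hK]
  have hKA : 0 ≤ K A := div_nonneg (by linarith [Real.cos_le_one A]) hA0
  have h1 : ∫ s in (0 : ℝ)..1, (1 - Real.cos s) / s ^ 2 ≤ ∫ s in (0 : ℝ)..A, (1 - Real.cos s) / s ^ 2 := by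
    rw [← intervalIntegral.integral_add_adjacent_intervals (hq 0 1) (hq 1 A)]
    have := intervalIntegral.integral_nonneg (μ := volume) hA (f := fun s : ℝ => (1 - Real.cos s) / s ^ 2)
      (fun s _ => (hbd s).1)
    linarith
  have h2 : (43 / 96 : ℝ) ≤ ∫ s in (0 : ℝ)..1, (1 - Real.cos s) / s ^ 2 := by
    have h3 : ∫ _ in (0 : ℝ)..1, (43 / 96 : ℝ) ≤ ∫ s in (0 : ℝ)..1, (1 - Real.cos s) / s ^ 2 := by
      refine intervalIntegral.integral_mono_on_of_le_Ioo zero_le_one
        intervalIntegrable_const (hq 0 1) (fun s hs => ?_)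
      have hs0 := hs.1
      have hs1 := hs.2
      rw [le_div_iff₀ (by positivity)]
      have h4 := Real.cos_bound (x := s) (by rw [abs_of_pos hs0]; exact hs1.le)
      rw [abs_le, abs_of_pos hs0] at h4
      have h5 : s ^ 4 ≤ s ^ 2 := pow_le_pow_of_le_one hs0.le hs1.le (by norm_num)
      nlinarith [h4.2]
    simpa using h3
  linarith

/-- selection of a phase: frequencies `R j`, growing fast, such that all phases are almost
attained by `γ log (R j)` with a common `γ ∈ [0, γ₀]` -/
theorem phases (γ₀ : ℝ) (hγ₀ : 0 < γ₀) (R₀ : ℕ) (N : ℕ) :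
    ∃ (R : ℕ → ℕ) (η : ℝ), 0 < η ∧ (∀ j < N, R₀ ≤ R j ∧ 2 ≤ R j) ∧
      (∀ i j, i < j → j < N → R i < R j) ∧
      ∀ θ : ℕ → ℝ, ∃ a : ℝ, 0 ≤ a ∧ a + η ≤ γ₀ ∧ ∀ γ ∈ Icc a (a + η), ∀ j < N,
        ∃ k : ℤ, |γ * Real.log (R j) - θ j - k * (2 * Real.pi)| ≤ 1 / 8 := by
  induction N with
  | zero =>
    refine ⟨fun _ => 0, γ₀, hγ₀, by simp, by intro i j _ h; omega, fun θ => ⟨0, le_rfl, by simp, ?_⟩⟩
    intro γ _ j hj
    omega
  | succ N ih =>
    obtain ⟨R, η, hη, hR0, hR, hθ⟩ := ih
    -- new frequency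
    have hlim : Tendsto (fun n : ℕ => Real.log (n : ℝ)) atTop atTop :=
      Real.tendsto_log_atTop.comp tendsto_natCast_atTop_atTop
    obtain ⟨n, hn1, hn2⟩ := ((hlim.eventually_ge_atTop ((2 * Real.pi + 1) / η)).and
      (eventually_ge_atTop (R₀ + 2 + ∑ i ∈ Finset.range N, (R i + 1)))).exists
    have hpi := Real.pi_pos
    have hln : 0 < Real.log n := lt_of_lt_of_le (by positivity) hn1
    have hlnη : 2 * Real.pi + 1 ≤ η * Real.log n := by
      rw [div_le_iff₀ hη] at hn1
      linarith
    refine ⟨fun j => if j = N then n else R j, 1 / (8 * Real.log n), by positivity, ?_, ?_, ?_⟩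
    · intro j hj
      by_cases h : j = N
      · simp only [h, if_true]
        omega
      · simp only [h, if_false]
        exact hR0 j (by omega)
    · intro i j hij hj
      have hi : i ≠ N := by omega
      simp only [hi, if_false]
      by_cases h : j = N
      · simp only [h, if_true]
        have h1 : R i + 1 ≤ ∑ i ∈ Finset.range N, (R i + 1) :=
          Finset.single_le_sum (f := fun i => R i + 1) (fun _ _ => Nat.zero_le _)
            (Finset.mem_range.2 (by omega))
        omega
      · simp only [h, if_false]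
        exact hR i j hij (by omega)
    · intro θ
      obtain ⟨a, ha0, haη, ha⟩ := hθ θ
      -- choose `k` with `(θ N + 2 π k) / log n` in `[a, a + 2π / log n)`
      set k : ℤ := ⌈(a * Real.log n - θ N) / (2 * Real.pi)⌉ with hk
      set b : ℝ := (θ N + k * (2 * Real.pi)) / Real.log n with hb
      have hk1 := Int.le_ceil ((a * Real.log n - θ N) / (2 * Real.pi))
      have hk2 := Int.ceil_lt_add_one ((a * Real.log n - θ N) / (2 * Real.pi))
      rw [← hk] at hk1 hk2
      rw [div_le_iff₀ (by positivity)] at hk1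
      have hk3 : (k : ℝ) * (2 * Real.pi) < a * Real.log n - θ N + 2 * Real.pi := by
        have h1 : ((a * Real.log n - θ N) / (2 * Real.pi) + 1) * (2 * Real.pi) =
          a * Real.log n - θ N + 2 * Real.pi := by field_simp
        rw [← h1]
        exact mul_lt_mul_of_pos_right hk2 (by positivity)
      have hbl : b * Real.log n = θ N + k * (2 * Real.pi) := by
        rw [hb]
        field_simp
      have hab : a ≤ b := by
        rw [hb, le_div_iff₀ hln]
        linarith
      have hbη : b + 1 / (8 * Real.log n) ≤ a + η := by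
        have h1 : (b + 1 / (8 * Real.log n)) * Real.log n ≤ (a + η) * Real.log n := by
          have h2 : (b + 1 / (8 * Real.log n)) * Real.log n = b * Real.log n + 1 / 8 := by
            field_simp
          rw [h2, hbl]
          nlinarith
        exact le_of_mul_le_mul_right h1 hln
      refine ⟨b, ha0.trans hab, hbη.trans haη, ?_⟩
      intro γ hγ j hj
      by_cases h : j = N
      · subst h
        simp only [if_true]
        refine ⟨k, ?_⟩
        have h1 : γ * Real.log n - θ j - k * (2 * Real.pi) = (γ - b) * Real.log n := by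
          rw [sub_mul, hbl]
          ring
        rw [h1, abs_of_nonneg (mul_nonneg (by linarith [hγ.1]) hln.le)]
        have h2 : γ - b ≤ 1 / (8 * Real.log n) := by linarith [hγ.2]
        calc (γ - b) * Real.log n ≤ 1 / (8 * Real.log n) * Real.log n :=
              mul_le_mul_of_nonneg_right h2 hln.le
          _ = 1 / 8 := by field_simp
      · simp only [h, if_false]
        exact ha γ ⟨hab.trans hγ.1, hγ.2.trans hbη⟩ j (by omega)

end Pool.Agent.Q165.Osc
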