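import Mathlib
import Pool.Agent.Q165.Osc

/-!
# The integrals of MP_45ee41_an: convergence, limit `ε → 0`, lower bound for modulated bumps
-/

set_option autoImplicit false

open MeasureTheory Set Filter Topology Complex

namespace Pool.Agent.Q165.Car

/-- Lipschitz, compactly supported functions -/
structure Nice (f : ℝ → ℂ) (L B : ℝ) : Prop where
  nonneg : 0 ≤ L
  lip : ∀ x y, ‖f x - f y‖ ≤ L * |x - y|
  supp : ∀ x, B ≤ |x| → f x = 0

theorem Nice.continuous {f : ℝ → ℂ} {L B : ℝ} (hf : Nice f L B) : Continuous f := by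
  have : LipschitzWith (Real.toNNReal L) f := by
    refine LipschitzWith.of_dist_le_mul fun x y => ?_
    rw [dist_eq_norm, Real.coe_toNNReal _ hf.nonneg, Real.dist_eq]
    exact hf.lip x y
  exact this.continuous

/-- the symmetric difference quotient -/
noncomputable def D (f : ℝ → ℂ) (x t : ℝ) : ℂ := (f (x - t) - f (x + t)) / (t : ℂ)

theorem Nice.norm_D_le {f : ℝ → ℂ} {L B : ℝ} (hf : Nice f L B) (x : ℝ) {t : ℝ} (ht : 0 < t) :
    ‖D f x t‖ ≤ 2 * L := by
  unfold D
  rw [norm_div, Complex.norm_real, Real.norm_eq_abs, abs_of_pos ht, div_le_iff₀ ht]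
  have h := hf.lip (x - t) (x + t)
  have h2 : |x - t - (x + t)| = 2 * t := by
    rw [show x - t - (x + t) = -(2 * t) by ring, abs_neg, abs_of_pos (by linarith)]
  rw [h2] at h
  linarith

theorem Nice.D_eq_zero {f : ℝ → ℂ} {L B : ℝ} (hf : Nice f L B) (x : ℝ) {t : ℝ} (ht : B + |x| ≤ t) :
    D f x t = 0 := by
  unfold D
  have h1 : B ≤ |x - t| := by
    have h := neg_abs_le (x - t)
    have h' := le_abs_self x
    linarith
  have h2 : B ≤ |x + t| := by
    have h := le_abs_self (x + t)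
    have h' := neg_abs_le x
    linarith
  rw [hf.supp _ h1, hf.supp _ h2]
  simp

theorem measurable_D {f : ℝ → ℂ} (hf : Continuous f) (x : ℝ) : Measurable (D f x) := by
  unfold D
  have h1 : Measurable fun t : ℝ => f (x - t) - f (x + t) := by
    have : Continuous fun t : ℝ => f (x - t) - f (x + t) := by fun_prop
    exact this.measurable
  exact h1.div Complex.measurable_ofReal

theorem Nice.integrable {f : ℝ → ℂ} {L B : ℝ} (hf : Nice f L B) {e : ℝ → ℂ} (he : Measurable e)
    (hb : ∀ t, ‖e t‖ ≤ 1) (x : ℝ) : IntegrableOn (fun t => e t * D f x t) (Ioi 0) := by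
  have h1 : Integrable ((Ioc 0 (B + |x|)).indicator fun _ : ℝ => 2 * L)
      (volume.restrict (Ioi (0 : ℝ))) := by
    rw [integrable_indicator_iff measurableSet_Ioc]
    refine IntegrableOn.restrict ?_
    exact integrableOn_const (by simp)
  refine Integrable.mono' h1 (he.mul (measurable_D hf.continuous x)).aestronglyMeasurable ?_
  refine (ae_restrict_iff' measurableSet_Ioi).2 (Eventually.of_forall fun t ht => ?_)
  have ht0 : 0 < t := ht
  by_cases h : t ≤ B + |x|
  · rw [indicator_of_mem (show t ∈ Ioc 0 (B + |x|) from ⟨ht0, h⟩), norm_mul]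
    calc ‖e t‖ * ‖D f x t‖ ≤ 1 * (2 * L) :=
          mul_le_mul (hb t) (hf.norm_D_le x ht0) (norm_nonneg _) zero_le_one
      _ = 2 * L := one_mul _
  · rw [indicator_of_notMem (fun h' => h h'.2), hf.D_eq_zero x (not_le.1 h).le, mul_zero, norm_zero]

/-- the truncated integral of the problem -/
noncomputable def trunc (ε lam δ : ℝ) (f : ℝ → ℂ) (x : ℝ) : ℂ :=
  ∫ y in {y : ℝ | δ < |x - y| ∧ |x - y| < 1 / δ},
    Complex.exp (I * ((lam * |x - y| ^ ε : ℝ) : ℂ)) / ((x - y : ℝ) : ℂ) * f y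

/-- the phase -/
noncomputable def ph (ε lam t : ℝ) : ℂ := Complex.exp (I * ((lam * t ^ ε : ℝ) : ℂ))

theorem norm_ph (ε lam t : ℝ) : ‖ph ε lam t‖ = 1 := by
  unfold ph
  rw [mul_comm, Complex.norm_exp_ofReal_mul_I]

theorem measurable_ph (ε lam : ℝ) : Measurable (ph ε lam) := by
  unfold ph
  fun_prop

theorem trunc_eq {f : ℝ → ℂ} (hf : Continuous f) (ε lam δ : ℝ) (hδ : 0 < δ) (hδ1 : δ < 1) (x : ℝ) :
    trunc ε lam δ f x = ∫ t in Ioo δ (1 / δ), ph ε lam t * D f x t := by
  have hδ' : δ ≤ 1 / δ := by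
    rw [le_div_iff₀ hδ]
    nlinarith
  set F : ℝ → ℂ := fun t => Complex.exp (I * ((lam * |t| ^ ε : ℝ) : ℂ)) / ((t : ℝ) : ℂ) * f (x - t)
    with hF
  set S : Set ℝ := {t : ℝ | δ < |t| ∧ |t| < 1 / δ} with hS
  have hSm : MeasurableSet S := by
    have : S = (fun t : ℝ => |t|) ⁻¹' Ioo δ (1 / δ) := rfl
    rw [this]
    exact measurableSet_Ioo.preimage measurable_norm
  have h1 : trunc ε lam δ f x = ∫ t in S, F t := by
    unfold trunc
    have hSx : MeasurableSet {y : ℝ | δ < |x - y| ∧ |x - y| < 1 / δ} :=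
      hSm.preimage (measurable_const.sub measurable_id)
    rw [← integral_indicator hSx, ← integral_indicator hSm]
    rw [← integral_sub_left_eq_self (S.indicator F) volume x]
    refine integral_congr_ae (Eventually.of_forall fun y => ?_)
    show _ = S.indicator F (x - y)
    by_cases hy : x - y ∈ S
    · rw [indicator_of_mem hy]
      rw [indicator_of_mem (show y ∈ {y : ℝ | δ < |x - y| ∧ |x - y| < 1 / δ} from hy)]
      simp only [hF, sub_sub_cancel]
    · rw [indicator_of_notMem hy]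
      rw [indicator_of_notMem (show y ∉ {y : ℝ | δ < |x - y| ∧ |x - y| < 1 / δ} from hy)]
  have h2 : S = Ioo δ (1 / δ) ∪ Ioo (-(1 / δ)) (-δ) := by
    ext t
    simp only [hS, mem_ofPred_eq, mem_union, mem_Ioo]
    constructor
    · rintro ⟨h, h'⟩
      rcases le_or_gt 0 t with h0 | h0
      · rw [abs_of_nonneg h0] at h h'
        exact Or.inl ⟨h, h'⟩
      · rw [abs_of_neg h0] at h h'
        exact Or.inr ⟨by linarith, by linarith⟩
    · rintro (⟨h, h'⟩ | ⟨h, h'⟩)
      · rw [abs_of_pos (hδ.trans h)]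
        exact ⟨h, h'⟩
      · have h0 : t < 0 := by linarith
        rw [abs_of_neg h0]
        exact ⟨by linarith, by linarith⟩
  have hdisj : Disjoint (Ioo δ (1 / δ)) (Ioo (-(1 / δ)) (-δ)) := by
    rw [Set.disjoint_left]
    rintro t ⟨h, _⟩ ⟨_, h'⟩
    linarith
  have hcF : ContinuousOn F {t : ℝ | t ≠ 0} := by
    intro t ht
    refine ContinuousAt.continuousWithinAt ?_
    rw [hF]
    have ht' : (t : ℂ) ≠ 0 := by exact_mod_cast ht
    have h3 : ContinuousAt (fun t : ℝ => |t| ^ ε) t :=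
      (continuous_abs.continuousAt).rpow_const (Or.inl (abs_ne_zero.2 ht))
    have h4 : ContinuousAt (fun t : ℝ => Complex.exp (I * ((lam * |t| ^ ε : ℝ) : ℂ))) t :=
      ((Complex.continuous_ofReal.continuousAt.comp (h3.const_mul lam)).const_mul I).cexp
    exact (h4.div Complex.continuous_ofReal.continuousAt ht').mul (by fun_prop)
  have hi1 : IntegrableOn F (Ioo δ (1 / δ)) := by
    refine (ContinuousOn.integrableOn_Icc (hcF.mono fun t ht => ?_)).mono_set Ioo_subset_Icc_self
    exact (lt_of_lt_of_le hδ ht.1).ne'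
  have hi2 : IntegrableOn F (Ioo (-(1 / δ)) (-δ)) := by
    refine (ContinuousOn.integrableOn_Icc (hcF.mono fun t ht => ?_)).mono_set Ioo_subset_Icc_self
    exact (lt_of_le_of_lt ht.2 (by linarith)).ne
  rw [h1, h2, setIntegral_union hdisj measurableSet_Ioo hi1 hi2]
  have h3 : ∫ t in Ioo (-(1 / δ)) (-δ), F t = ∫ t in Ioo δ (1 / δ), F (-t) := by
    rw [← integral_Ioc_eq_integral_Ioo, ← integral_Ioc_eq_integral_Ioo,
      ← intervalIntegral.integral_of_le (by linarith), ← intervalIntegral.integral_of_le hδ',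
      intervalIntegral.integral_comp_neg]
  have hi3 : IntegrableOn (fun t => F (-t)) (Ioo δ (1 / δ)) := by
    refine (ContinuousOn.integrableOn_Icc (hcF.comp continuous_neg.continuousOn fun t ht => ?_)).mono_set
      Ioo_subset_Icc_self
    exact (neg_ne_zero.2 (lt_of_lt_of_le hδ ht.1).ne')
  rw [h3, ← integral_add hi1 hi3]
  refine setIntegral_congr_fun measurableSet_Ioo fun t ht => ?_
  have ht0 : 0 < t := hδ.trans ht.1
  have htc : (t : ℂ) ≠ 0 := by exact_mod_cast ht0.ne'
  simp only [hF, ph, D, abs_neg, abs_of_pos ht0, sub_neg_eq_add]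
  push_cast
  field_simp
  ring

theorem Nice.tendsto_trunc {f : ℝ → ℂ} {L B : ℝ} (hf : Nice f L B) (ε lam x : ℝ) :
    Tendsto (fun δ => trunc ε lam δ f x) (𝓝[>] 0)
      (𝓝 (∫ t in Ioi 0, ph ε lam t * D f x t)) := by
  have hint := hf.integrable (measurable_ph ε lam) (fun t => (norm_ph ε lam t).le) x
  have h1 : Tendsto (fun δ : ℝ => ∫ t in Ioi 0,
      (Ioo δ (1 / δ)).indicator (fun t => ph ε lam t * D f x t) t) (𝓝[>] 0)
      (𝓝 (∫ t in Ioi 0, ph ε lam t * D f x t)) := by
    refine tendsto_integral_filter_of_dominated_convergence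
      (fun t => ‖ph ε lam t * D f x t‖) ?_ ?_ hint.norm ?_
    · exact Eventually.of_forall fun δ =>
        (((measurable_ph ε lam).mul (measurable_D hf.continuous x)).indicator
          measurableSet_Ioo).aestronglyMeasurable
    · refine Eventually.of_forall fun δ => Eventually.of_forall fun t => ?_
      exact norm_indicator_le_norm_self _ _
    · refine (ae_restrict_iff' measurableSet_Ioi).2 (Eventually.of_forall fun t ht => ?_)
      have ht0 : 0 < t := ht
      refine tendsto_const_nhds.congr' ?_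
      have h2 : ∀ᶠ δ : ℝ in 𝓝[>] 0, δ < t :=
        mem_nhdsWithin_of_mem_nhds (Iio_mem_nhds ht0)
      have h3 : ∀ᶠ δ : ℝ in 𝓝[>] 0, δ < 1 / t :=
        mem_nhdsWithin_of_mem_nhds (Iio_mem_nhds (by positivity))
      filter_upwards [h2, h3, self_mem_nhdsWithin] with δ h2 h3 h4
      have h4' : 0 < δ := h4
      rw [indicator_of_mem]
      refine ⟨h2, ?_⟩
      rw [lt_div_iff₀ h4']
      rw [lt_div_iff₀ ht0] at h3
      linarith
  refine h1.congr' ?_
  have h5 : ∀ᶠ δ : ℝ in 𝓝[>] 0, δ < 1 := mem_nhdsWithin_of_mem_nhds (Iio_mem_nhds one_pos)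
  filter_upwards [h5, self_mem_nhdsWithin] with δ h5 h4
  have h4' : 0 < δ := h4
  rw [trunc_eq hf.continuous ε lam δ h4' h5 x, setIntegral_indicator measurableSet_Ioo]
  congr 2
  ext t
  simp only [mem_inter_iff, mem_Ioi, mem_Ioo]
  constructor
  · rintro ⟨_, h⟩; exact h
  · rintro h; exact ⟨h4'.trans h.1, h⟩

/-- the limit operator, with the phase `t ^ (i γ)` -/
noncomputable def pl (γ t : ℝ) : ℂ := Complex.exp (I * ((γ * Real.log t : ℝ) : ℂ))

theorem norm_pl (γ t : ℝ) : ‖pl γ t‖ = 1 := by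
  unfold pl
  rw [mul_comm, Complex.norm_exp_ofReal_mul_I]

theorem measurable_pl (γ : ℝ) : Measurable (pl γ) := by
  unfold pl
  fun_prop

noncomputable def Tv (f : ℝ → ℂ) (γ x : ℝ) : ℂ := ∫ t in Ioi 0, pl γ t * D f x t

noncomputable def Hv (f : ℝ → ℂ) (ε lam x : ℝ) : ℂ := ∫ t in Ioi 0, ph ε lam t * D f x t

/-- the error -/
noncomputable def err (M ε : ℝ) : ℝ := ∫ t in Ioc 0 M, |Real.log t * (t ^ ε - 1)|

theorem intlog (M : ℝ) : IntegrableOn (fun t : ℝ => |Real.log t|) (Ioc 0 M) := by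
  rcases le_or_gt M 0 with h | h
  · rw [Ioc_eq_empty (not_lt.2 h)]
    exact integrableOn_empty
  · have := (intervalIntegral.intervalIntegrable_log' (a := 0) (b := M)).norm
    rw [intervalIntegrable_iff_integrableOn_Ioc_of_le h.le] at this
    exact this

theorem err_tendsto (M : ℝ) (hM : 1 ≤ M) : Tendsto (err M) (𝓝[>] 0) (𝓝 0) := by
  have h0 : ∫ t in Ioc (0 : ℝ) M, (0 : ℝ) = 0 := by simp
  suffices h : Tendsto (err M) (𝓝[>] 0) (𝓝 (∫ t in Ioc (0 : ℝ) M, (0 : ℝ))) by rwa [h0] at h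
  unfold err
  refine tendsto_integral_filter_of_dominated_convergence
    (fun t => (M + 1) * |Real.log t|) ?_ ?_ ((intlog M).const_mul _) ?_
  · refine Eventually.of_forall fun ε => ?_
    have : Measurable fun t : ℝ => |Real.log t * (t ^ ε - 1)| := by fun_prop
    exact this.aestronglyMeasurable
  · have h5 : ∀ᶠ ε : ℝ in 𝓝[>] 0, ε < 1 := mem_nhdsWithin_of_mem_nhds (Iio_mem_nhds one_pos)
    filter_upwards [h5, self_mem_nhdsWithin] with ε h5 h4
    have h4' : 0 < ε := h4
    refine (ae_restrict_iff' measurableSet_Ioc).2 (Eventually.of_forall fun t ht => ?_)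
    rw [Real.norm_eq_abs, abs_abs, abs_mul, mul_comm]
    refine mul_le_mul_of_nonneg_right ?_ (abs_nonneg _)
    have h6 : 0 ≤ t ^ ε := Real.rpow_nonneg ht.1.le _
    have h7 : t ^ ε ≤ M := by
      rcases le_or_gt t 1 with h | h
      · exact (Real.rpow_le_one ht.1.le h h4'.le).trans hM
      · calc t ^ ε ≤ t ^ (1 : ℝ) := Real.rpow_le_rpow_of_exponent_le h.le h5.le
          _ = t := Real.rpow_one t
          _ ≤ M := ht.2
    rw [abs_le]
    constructor <;> linarith
  · refine (ae_restrict_iff' measurableSet_Ioc).2 (Eventually.of_forall fun t ht => ?_)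
    have h1 : Tendsto (fun ε : ℝ => t ^ ε) (𝓝[>] 0) (𝓝 (t ^ (0 : ℝ))) :=
      ((Real.continuousAt_const_rpow ht.1.ne').tendsto).mono_left nhdsWithin_le_nhds
    rw [Real.rpow_zero] at h1
    have h2 := ((h1.sub_const 1).const_mul (Real.log t)).abs
    simpa using h2

theorem exp_sub_exp (a b : ℝ) : ‖Complex.exp (I * a) - Complex.exp (I * b)‖ ≤ |a - b| := by
  have h1 : Complex.exp (I * a) - Complex.exp (I * b) =
      Complex.exp (I * b) * (Complex.exp (I * ((a - b : ℝ) : ℂ)) - 1) := by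
    rw [mul_sub, mul_one, ← Complex.exp_add]
    congr 2
    push_cast
    ring
  rw [h1, norm_mul, mul_comm I (b : ℂ), Complex.norm_exp_ofReal_mul_I, one_mul]
  exact Real.norm_exp_I_mul_ofReal_sub_one_le

theorem log_approx {t ε : ℝ} (ht : 0 < t) (hε : 0 < ε) :
    |(t ^ ε - 1) / ε - Real.log t| ≤ |Real.log t * (t ^ ε - 1)| := by
  set u : ℝ := ε * Real.log t with hu
  have h1 : t ^ ε = Real.exp u := by
    rw [Real.rpow_def_of_pos ht, hu, mul_comm]
  have h2 : u + 1 ≤ Real.exp u := Real.add_one_le_exp u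
  have h3 : -u + 1 ≤ Real.exp (-u) := Real.add_one_le_exp (-u)
  have h4 : Real.exp u - 1 ≤ u * Real.exp u := by
    have h5 := mul_le_mul_of_nonneg_right h3 (Real.exp_pos u).le
    rw [← Real.exp_add, neg_add_cancel, Real.exp_zero] at h5
    linarith
  have h6 : (t ^ ε - 1) / ε - Real.log t = (Real.exp u - 1 - u) / ε := by
    rw [h1, hu]
    field_simp
  have h7 : 0 ≤ (Real.exp u - 1 - u) / ε := div_nonneg (by linarith) hε.le
  rw [h6, abs_of_nonneg h7, h1]
  have h8 : (Real.exp u - 1 - u) / ε ≤ Real.log t * (Real.exp u - 1) := by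
    rw [div_le_iff₀ hε]
    have h9 : Real.log t * (Real.exp u - 1) * ε = u * (Real.exp u - 1) := by rw [hu]; ring
    rw [h9]
    linarith
  exact h8.trans (le_abs_self _)

theorem Nice.approx {f : ℝ → ℂ} {L B : ℝ} (hf : Nice f L B) {ε γ x : ℝ} (hε : 0 < ε)
    (hγ : 0 ≤ γ) (hx : |x| ≤ 1) :
    ‖Tv f γ x‖ ≤ ‖Hv f ε (γ / ε) x‖ + γ * (2 * L) * err (B + 1) ε := by
  set q : ℝ → ℂ := fun t => Complex.exp (I * ((γ * ((t ^ ε - 1) / ε) : ℝ) : ℂ)) with hq
  have hqn : ∀ t, ‖q t‖ ≤ 1 := by
    intro t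
    rw [hq]
    simp only
    rw [mul_comm, Complex.norm_exp_ofReal_mul_I]
  have hqm : Measurable q := by
    rw [hq]
    fun_prop
  have h1 : Hv f ε (γ / ε) x = Complex.exp (I * ((γ / ε : ℝ) : ℂ)) * ∫ t in Ioi 0, q t * D f x t := by
    unfold Hv
    rw [← integral_const_mul]
    refine setIntegral_congr_fun measurableSet_Ioi fun t _ => ?_
    simp only [ph, hq]
    rw [← mul_assoc, ← Complex.exp_add]
    congr 2
    push_cast
    have : (ε : ℂ) ≠ 0 := by exact_mod_cast hε.ne'
    field_simp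
    ring
  have h2 : ‖Hv f ε (γ / ε) x‖ = ‖∫ t in Ioi 0, q t * D f x t‖ := by
    rw [h1, norm_mul, mul_comm I, Complex.norm_exp_ofReal_mul_I, one_mul]
  have hi1 := hf.integrable (measurable_pl γ) (fun t => (norm_pl γ t).le) x
  have hi2 := hf.integrable hqm hqn x
  have h3 : ‖Tv f γ x - ∫ t in Ioi 0, q t * D f x t‖ ≤ γ * (2 * L) * err (B + 1) ε := by
    unfold Tv
    rw [← integral_sub hi1 hi2]
    have h4 : ∫ t in Ioi 0, (pl γ t * D f x t - q t * D f x t) =
        ∫ t in Ioc 0 (B + 1), (pl γ t * D f x t - q t * D f x t) := by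
      refine setIntegral_eq_of_subset_of_forall_sdiff_eq_zero measurableSet_Ioi
        (fun t ht => ht.1) (fun t ht => ?_)
      have h5 : B + 1 < t := by
        by_contra hcon
        exact ht.2 ⟨ht.1, not_lt.1 hcon⟩
      rw [hf.D_eq_zero x (by linarith)]
      simp
    rw [h4]
    unfold err
    rw [← integral_const_mul]
    refine norm_integral_le_of_norm_le ?_ ?_
    · refine Integrable.const_mul ?_ _
      have h6 := (intlog (B + 1))
      refine Integrable.mono' (g := fun t => (((B + 1) ^ ε) + 1) * |Real.log t|) (h6.const_mul _) ?_ ?_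
      · have : Measurable fun t : ℝ => |Real.log t * (t ^ ε - 1)| := by fun_prop
        exact this.aestronglyMeasurable
      · refine (ae_restrict_iff' measurableSet_Ioc).2 (Eventually.of_forall fun t ht => ?_)
        rw [Real.norm_eq_abs, abs_abs, abs_mul, mul_comm]
        refine mul_le_mul_of_nonneg_right ?_ (abs_nonneg _)
        have h7 : 0 ≤ t ^ ε := Real.rpow_nonneg ht.1.le _
        have h8 : t ^ ε ≤ (B + 1) ^ ε := Real.rpow_le_rpow ht.1.le ht.2 hε.le
        rw [abs_le]
        constructor <;> linarith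
    · refine (ae_restrict_iff' measurableSet_Ioc).2 (Eventually.of_forall fun t ht => ?_)
      have ht0 : 0 < t := ht.1
      rw [← sub_mul, norm_mul]
      have h9 : ‖pl γ t - q t‖ ≤ γ * |Real.log t * (t ^ ε - 1)| := by
        unfold pl
        rw [hq]
        refine (exp_sub_exp _ _).trans ?_
        rw [← mul_sub, abs_mul, abs_of_nonneg hγ, abs_sub_comm]
        exact mul_le_mul_of_nonneg_left (log_approx ht0 hε) hγ
      calc ‖pl γ t - q t‖ * ‖D f x t‖ ≤ (γ * |Real.log t * (t ^ ε - 1)|) * (2 * L) :=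
            mul_le_mul h9 (hf.norm_D_le x ht0) (norm_nonneg _) (by positivity)
        _ = γ * (2 * L) * |Real.log t * (t ^ ε - 1)| := by ring
  rw [h2]
  calc ‖Tv f γ x‖ = ‖(∫ t in Ioi 0, q t * D f x t) + (Tv f γ x - ∫ t in Ioi 0, q t * D f x t)‖ := by
        congr 1; ring
    _ ≤ _ := (norm_add_le _ _).trans (add_le_add le_rfl h3)

end Pool.Agent.Q165.Car
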