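import Mathlib
import Pool.Agent.Q165.Car

/-!
# Lower bound for modulated bumps (MP_45ee41)
-/

set_option autoImplicit false

open MeasureTheory Set Filter Topology Complex

namespace Pool.Agent.Q165.Car

/-- the bump -/
noncomputable def bmp : ContDiffBump (0 : ℝ) := ⟨1, 2, one_pos, one_lt_two⟩

noncomputable def g (x : ℝ) : ℝ := bmp x

theorem g_one {x : ℝ} (hx : |x| ≤ 1) : g x = 1 := by
  refine bmp.one_of_mem_closedBall ?_
  rw [Metric.mem_closedBall, dist_zero_right, Real.norm_eq_abs]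
  exact hx

theorem g_zero {x : ℝ} (hx : 2 ≤ |x|) : g x = 0 := by
  refine bmp.zero_of_le_dist ?_
  rw [dist_zero_right, Real.norm_eq_abs]
  exact hx

theorem g_nonneg (x : ℝ) : 0 ≤ g x := bmp.nonneg
theorem g_le_one (x : ℝ) : g x ≤ 1 := bmp.le_one
theorem abs_g (x : ℝ) : |g x| ≤ 1 := by
  rw [abs_of_nonneg (g_nonneg x)]
  exact g_le_one x

theorem g_smooth : ContDiff ℝ (⊤ : ℕ∞) g := bmp.contDiff

theorem g_supp : HasCompactSupport g := bmp.hasCompactSupport

theorem g_deriv (x : ℝ) : HasDerivAt g (deriv g x) x :=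
  (g_smooth.differentiable (by simp) x).hasDerivAt

theorem g'_cont : Continuous (deriv g) := g_smooth.continuous_deriv (by simp)

theorem g'_bdd : ∃ K : ℝ, 0 ≤ K ∧ ∀ x, |deriv g x| ≤ K := by
  obtain ⟨K, hK⟩ := (g'_cont).bounded_above_of_compact_support (g_supp.deriv)
  exact ⟨K, (norm_nonneg _).trans (hK 0), fun x => by simpa [Real.norm_eq_abs] using hK x⟩

/-- the scaled and modulated bump `g (u / R) e ^ {i u}` -/
noncomputable def F (R : ℝ) (u : ℝ) : ℂ := (g (u / R) : ℂ) * Complex.exp (I * ((u : ℝ) : ℂ))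

theorem nice_of_smooth {f : ℝ → ℂ} (hf : ContDiff ℝ (⊤ : ℕ∞) f) (hc : HasCompactSupport f) {B : ℝ}
    (hB : ∀ x, B ≤ |x| → f x = 0) : ∃ L, Nice f L B := by
  obtain ⟨C, hC⟩ := ContDiff.lipschitzWith_of_hasCompactSupport hc hf (by simp)
  refine ⟨C, C.2, fun x y => ?_, hB⟩
  have := hC.dist_le_mul x y
  rwa [dist_eq_norm, Real.dist_eq] at this

theorem F_smooth (R : ℝ) : ContDiff ℝ (⊤ : ℕ∞) (F R) := by
  unfold F
  have h1 : ContDiff ℝ (⊤ : ℕ∞) fun u : ℝ => (g (u / R) : ℂ) :=
    Complex.ofRealCLM.contDiff.comp (g_smooth.comp (contDiff_id.div_const R))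
  have h2 : ContDiff ℝ (⊤ : ℕ∞) fun u : ℝ => Complex.exp (I * (u : ℂ)) :=
    (contDiff_const.mul Complex.ofRealCLM.contDiff).cexp
  exact h1.mul h2

theorem F_zero {R : ℝ} (hR : 0 < R) {u : ℝ} (hu : 2 * R ≤ |u|) : F R u = 0 := by
  unfold F
  rw [g_zero, ofReal_zero, zero_mul]
  rw [abs_div, abs_of_pos hR, le_div_iff₀ hR]
  exact hu

theorem F_supp {R : ℝ} (hR : 0 < R) : HasCompactSupport (F R) := by
  refine HasCompactSupport.intro (K := Metric.closedBall 0 (2 * R)) (isCompact_closedBall _ _) ?_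
  intro x hx
  rw [Metric.mem_closedBall, dist_zero_right, Real.norm_eq_abs, not_le] at hx
  exact F_zero hR hx.le

theorem F_nice {R : ℝ} (hR : 0 < R) : ∃ L, Nice (F R) L (2 * R) :=
  nice_of_smooth (F_smooth R) (F_supp hR) fun _ hx => F_zero hR hx

/-- the constants -/
noncomputable def cA (A : ℝ) : ℝ := ∫ s in (0 : ℝ)..A, Real.sin s / s
noncomputable def CA (A : ℝ) : ℝ := ∫ t in Ioc 0 A, |Real.log t|

theorem CA_nonneg (A : ℝ) : 0 ≤ CA A := integral_nonneg fun _ => abs_nonneg _

theorem main_piece {K A R γ y : ℝ} (hK : 0 ≤ K) (hK' : ∀ x, |deriv g x| ≤ K) (hA : 1 ≤ A)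
    (hR : 2 * A ≤ R) (hγ : 0 ≤ γ) (hγ1 : γ ≤ 1) (hy : |y| ≤ R / 2) :
    ‖Complex.exp (-(I * ((y : ℝ) : ℂ))) * Tv (F R) γ y + 2 * I * (cA A : ℂ)‖
      ≤ 2 * γ * CA A + 2 * ((4 + 3 * K) / A) := by
  have hA0 : 0 < A := by linarith
  have hR0 : 0 < R := by linarith
  obtain ⟨L, hL⟩ := F_nice hR0
  have hyR := abs_le.1 hy
  -- the integrand
  set Φ : ℝ → ℂ := fun s => Complex.exp (-(I * ((y : ℝ) : ℂ))) * (pl γ s * D (F R) y s) with hΦ
  have hΦ1 : ∀ s : ℝ, Φ s = pl γ s / (s : ℂ) * (g ((y - s) / R) : ℂ) * Complex.exp (I * (((-1 : ℝ) * s : ℝ) : ℂ))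
      - pl γ s / (s : ℂ) * (g ((y + s) / R) : ℂ) * Complex.exp (I * (((1 : ℝ) * s : ℝ) : ℂ)) := by
    intro s
    have e1 : Complex.exp (-(I * ((y : ℝ) : ℂ))) * Complex.exp (I * (((y - s : ℝ)) : ℂ)) =
        Complex.exp (I * (((-1 : ℝ) * s : ℝ) : ℂ)) := by
      rw [← Complex.exp_add]
      congr 1
      push_cast
      ring
    have e2 : Complex.exp (-(I * ((y : ℝ) : ℂ))) * Complex.exp (I * (((y + s : ℝ)) : ℂ)) =
        Complex.exp (I * (((1 : ℝ) * s : ℝ) : ℂ)) := by
      rw [← Complex.exp_add]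
      congr 1
      push_cast
      ring
    rw [← e1, ← e2]
    simp only [hΦ, D, F]
    ring
  have hΦi : IntegrableOn Φ (Ioi 0) :=
    (hL.integrable (measurable_pl γ) (fun t => (norm_pl γ t).le) y).const_mul _
  have h1 : Complex.exp (-(I * ((y : ℝ) : ℂ))) * Tv (F R) γ y = ∫ s in Ioi 0, Φ s := by
    unfold Tv
    rw [← integral_const_mul]
  have hsplit : ∫ s in Ioi 0, Φ s = (∫ s in Ioc 0 A, Φ s) + ∫ s in Ioc A (3 * R), Φ s := by
    have hu : Ioi (0 : ℝ) = Ioc 0 A ∪ Ioi A := (Ioc_union_Ioi_eq_Ioi hA0.le).symm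
    have hΦi' : IntegrableOn Φ (Ioc 0 A) := hΦi.mono_set fun t ht => ht.1
    have hΦi'' : IntegrableOn Φ (Ioi A) := hΦi.mono_set fun t ht => hA0.trans ht
    conv_lhs => rw [hu]
    rw [setIntegral_union (by
      rw [Set.disjoint_left]
      rintro t ⟨_, h⟩ h'
      exact absurd h (not_le.2 h')) measurableSet_Ioi hΦi' hΦi'']
    congr 1
    refine setIntegral_eq_of_subset_of_forall_sdiff_eq_zero measurableSet_Ioi
      (fun t ht => ht.1) (fun t ht => ?_)
    have h5 : 3 * R < t := by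
      by_contra hcon
      exact ht.2 ⟨ht.1, not_lt.1 hcon⟩
    simp only [hΦ]
    rw [hL.D_eq_zero y (by linarith)]
    simp
  -- first part
  have hp1 : ‖(∫ s in Ioc 0 A, Φ s) + 2 * I * (cA A : ℂ)‖ ≤ 2 * γ * CA A := by
    have h2 : (∫ s in Ioc 0 A, Φ s) = ∫ s in Ioc 0 A, pl γ s * (-2 * I * ((Real.sin s / s : ℝ) : ℂ)) := by
      refine setIntegral_congr_fun measurableSet_Ioc fun s hs => ?_
      have hs0 : 0 < s := hs.1
      show Φ s = _
      rw [hΦ1]
      have h3 : g ((y - s) / R) = 1 := by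
        refine g_one ?_
        rw [abs_div, abs_of_pos hR0, div_le_one hR0, abs_le]
        constructor <;> linarith [hs.2, hyR.1, hyR.2]
      have h4 : g ((y + s) / R) = 1 := by
        refine g_one ?_
        rw [abs_div, abs_of_pos hR0, div_le_one hR0, abs_le]
        constructor <;> linarith [hs.2, hyR.1, hyR.2]
      rw [h3, h4]
      have h5 : Complex.exp (I * (((-1 : ℝ) * s : ℝ) : ℂ)) = Real.cos s - Real.sin s * I := by
        rw [mul_comm, Complex.exp_mul_I]
        push_cast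
        rw [neg_one_mul, Complex.cos_neg, Complex.sin_neg]
        ring
      have h6 : Complex.exp (I * (((1 : ℝ) * s : ℝ) : ℂ)) = Real.cos s + Real.sin s * I := by
        rw [mul_comm, Complex.exp_mul_I]
        push_cast
        rw [one_mul]
      rw [h5, h6]
      push_cast
      ring
    have h3 : (cA A : ℂ) = ∫ s in Ioc 0 A, ((Real.sin s / s : ℝ) : ℂ) := by
      unfold cA
      rw [intervalIntegral.integral_of_le hA0.le]
      exact integral_ofReal.symm
    have hsc : IntegrableOn (fun s : ℝ => ((Real.sin s / s : ℝ) : ℂ)) (Ioc 0 A) := by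
      have hm : Measurable fun s : ℝ => ((Real.sin s / s : ℝ) : ℂ) := by fun_prop
      refine Integrable.mono' (g := fun _ => (1 : ℝ)) (integrableOn_const (by simp))
        hm.aestronglyMeasurable ?_
      refine (ae_restrict_iff' measurableSet_Ioc).2 (Eventually.of_forall fun s hs => ?_)
      rw [Complex.norm_real, Real.norm_eq_abs, abs_div, abs_of_pos hs.1, div_le_one hs.1]
      exact (Real.abs_sin_le_abs).trans (le_of_eq (abs_of_pos hs.1))
    have hsc2 : IntegrableOn (fun s : ℝ => pl γ s * (-2 * I * ((Real.sin s / s : ℝ) : ℂ))) (Ioc 0 A) := by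
      have hm : Measurable fun s : ℝ => pl γ s * (-2 * I * ((Real.sin s / s : ℝ) : ℂ)) := by
        have := measurable_pl γ
        fun_prop
      refine Integrable.mono' (g := fun _ => (2 : ℝ)) (integrableOn_const (by simp))
        hm.aestronglyMeasurable ?_
      refine (ae_restrict_iff' measurableSet_Ioc).2 (Eventually.of_forall fun s hs => ?_)
      rw [norm_mul, norm_pl, one_mul, norm_mul, norm_mul, Complex.norm_I, norm_neg,
        Complex.norm_real, Real.norm_eq_abs, abs_div, abs_of_pos hs.1]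
      have h7 : |Real.sin s| / s ≤ 1 := by
        rw [div_le_one hs.1]
        exact (Real.abs_sin_le_abs).trans (le_of_eq (abs_of_pos hs.1))
      simp only [Complex.norm_ofNat, mul_one]
      linarith
    have h4 : (∫ s in Ioc 0 A, Φ s) + 2 * I * (cA A : ℂ) =
        ∫ s in Ioc 0 A, (pl γ s - 1) * (-2 * I * ((Real.sin s / s : ℝ) : ℂ)) := by
      rw [h2, h3, ← integral_const_mul, ← integral_add hsc2 (hsc.const_mul _)]
      refine setIntegral_congr_fun measurableSet_Ioc fun s _ => ?_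
      ring
    rw [h4]
    unfold CA
    rw [← integral_const_mul]
    refine norm_integral_le_of_norm_le ((intlog A).const_mul _) ?_
    refine (ae_restrict_iff' measurableSet_Ioc).2 (Eventually.of_forall fun s hs => ?_)
    have h8 : ‖pl γ s - 1‖ ≤ γ * |Real.log s| := by
      unfold pl
      refine (Real.norm_exp_I_mul_ofReal_sub_one_le).trans ?_
      rw [Real.norm_eq_abs, abs_mul, abs_of_nonneg hγ]
    have h7 : |Real.sin s| / s ≤ 1 := by
      rw [div_le_one hs.1]
      exact (Real.abs_sin_le_abs).trans (le_of_eq (abs_of_pos hs.1))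
    have h9 : ‖-2 * I * ((Real.sin s / s : ℝ) : ℂ)‖ ≤ 2 := by
      rw [norm_mul, norm_mul, Complex.norm_I, norm_neg,
        Complex.norm_real, Real.norm_eq_abs, abs_div, abs_of_pos hs.1]
      simp only [Complex.norm_ofNat, mul_one]
      linarith
    rw [norm_mul]
    calc ‖pl γ s - 1‖ * ‖-2 * I * ((Real.sin s / s : ℝ) : ℂ)‖ ≤ (γ * |Real.log s|) * 2 :=
          mul_le_mul h8 h9 (norm_nonneg _) (by positivity)
      _ = 2 * γ * |Real.log s| := by ring
  -- second part
  have hAR : A ≤ 3 * R := by linarith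
  have hp2 : ‖∫ s in Ioc A (3 * R), Φ s‖ ≤ 2 * ((4 + 3 * K) / A) := by
    rw [← intervalIntegral.integral_of_le hAR]
    have hd1 : ∀ s : ℝ, HasDerivAt (fun s => g ((y - s) / R)) (deriv g ((y - s) / R) * (-1 / R)) s := by
      intro s
      have h2 : HasDerivAt (fun s : ℝ => (y - s) / R) (-1 / R) s :=
        ((hasDerivAt_id s).const_sub y).div_const R
      exact (g_deriv ((y - s) / R)).comp s h2
    have hd2 : ∀ s : ℝ, HasDerivAt (fun s => g ((y + s) / R)) (deriv g ((y + s) / R) * (1 / R)) s := by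
      intro s
      have h2 : HasDerivAt (fun s : ℝ => (y + s) / R) (1 / R) s :=
        ((hasDerivAt_id s).const_add y).div_const R
      exact (g_deriv ((y + s) / R)).comp s h2
    have hKR : 0 ≤ K / R := by positivity
    have hgc := g'_cont
    have hb1 := Osc.ibp A (3 * R) γ (K / R) (-1) hA0 hAR hγ hγ1 hKR (by simp)
      (fun s => g ((y - s) / R)) (fun s => deriv g ((y - s) / R) * (-1 / R)) hd1
      (by fun_prop) (fun s => abs_g _) (fun s => by
        rw [abs_mul, abs_div, abs_neg, abs_one, abs_of_pos hR0, mul_one_div]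
        exact div_le_div_of_nonneg_right (hK' _) hR0.le)
    have hb2 := Osc.ibp A (3 * R) γ (K / R) 1 hA0 hAR hγ hγ1 hKR (by simp)
      (fun s => g ((y + s) / R)) (fun s => deriv g ((y + s) / R) * (1 / R)) hd2
      (by fun_prop) (fun s => abs_g _) (fun s => by
        rw [abs_mul, abs_div, abs_one, abs_of_pos hR0, mul_one_div]
        exact div_le_div_of_nonneg_right (hK' _) hR0.le)
    have hbd : (4 + K / R * (3 * R - A)) / A ≤ (4 + 3 * K) / A := by
      refine div_le_div_of_nonneg_right ?_ hA0.le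
      have h3 : K / R * (3 * R - A) = 3 * K - K / R * A := by field_simp
      have h4 : 0 ≤ K / R * A := by positivity
      linarith
    have hcpl : ContinuousOn (pl γ) (uIcc A (3 * R)) := by
      intro s hs
      rw [uIcc_of_le hAR] at hs
      have hs0 : s ≠ 0 := (lt_of_lt_of_le hA0 hs.1).ne'
      unfold pl
      exact ((Complex.continuous_ofReal.continuousAt.comp
        ((Real.continuousAt_log hs0).const_mul γ)).const_mul I).cexp.continuousWithinAt
    have hgcont : Continuous g := g_smooth.continuous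
    have hinv : ContinuousOn (fun s : ℝ => (s : ℂ)) (uIcc A (3 * R)) :=
      Complex.continuous_ofReal.continuousOn
    have hne : ∀ s ∈ uIcc A (3 * R), (s : ℂ) ≠ 0 := by
      intro s hs
      rw [uIcc_of_le hAR] at hs
      exact_mod_cast (lt_of_lt_of_le hA0 hs.1).ne'
    have hint1 : IntervalIntegrable (fun s : ℝ => pl γ s / (s : ℂ) * (g ((y - s) / R) : ℂ) *
        Complex.exp (I * (((-1 : ℝ) * s : ℝ) : ℂ))) volume A (3 * R) := by
      refine ContinuousOn.intervalIntegrable ?_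
      refine ((hcpl.div hinv hne).mul ?_).mul ?_
      · exact (Complex.continuous_ofReal.comp (hgcont.comp (by fun_prop))).continuousOn
      · exact Continuous.continuousOn (by fun_prop)
    have hint2 : IntervalIntegrable (fun s : ℝ => pl γ s / (s : ℂ) * (g ((y + s) / R) : ℂ) *
        Complex.exp (I * (((1 : ℝ) * s : ℝ) : ℂ))) volume A (3 * R) := by
      refine ContinuousOn.intervalIntegrable ?_
      refine ((hcpl.div hinv hne).mul ?_).mul ?_
      · exact (Complex.continuous_ofReal.comp (hgcont.comp (by fun_prop))).continuousOn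
      · exact Continuous.continuousOn (by fun_prop)
    have h2 : ∫ s in A..(3 * R), Φ s = (∫ s in A..(3 * R), pl γ s / (s : ℂ) * (g ((y - s) / R) : ℂ) *
        Complex.exp (I * (((-1 : ℝ) * s : ℝ) : ℂ))) - ∫ s in A..(3 * R), pl γ s / (s : ℂ) *
        (g ((y + s) / R) : ℂ) * Complex.exp (I * (((1 : ℝ) * s : ℝ) : ℂ)) := by
      rw [← intervalIntegral.integral_sub hint1 hint2]
      refine intervalIntegral.integral_congr fun s _ => ?_
      exact hΦ1 s
    rw [h2]
    refine (norm_sub_le _ _).trans ?_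
    have h3 := hb1.trans hbd
    have h4 := hb2.trans hbd
    unfold pl
    linarith
  rw [h1, hsplit]
  calc ‖(∫ s in Ioc 0 A, Φ s) + (∫ s in Ioc A (3 * R), Φ s) + 2 * I * (cA A : ℂ)‖
      = ‖((∫ s in Ioc 0 A, Φ s) + 2 * I * (cA A : ℂ)) + ∫ s in Ioc A (3 * R), Φ s‖ := by
        congr 1; ring
    _ ≤ _ := (norm_add_le _ _).trans (add_le_add hp1 hp2)

/-- scaling -/
theorem Tv_scale (R : ℝ) (hR : 0 < R) (γ x : ℝ) :
    Tv (fun u => F R (R * u)) γ x = Complex.exp (-(I * ((γ * Real.log R : ℝ) : ℂ))) *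
      Tv (F R) γ (R * x) := by
  unfold Tv
  have h := integral_comp_mul_left_Ioi (fun s => pl γ s * D (F R) (R * x) s) 0 hR
  rw [mul_zero] at h
  have hR' : (R : ℂ) ≠ 0 := by exact_mod_cast hR.ne'
  have h2 : ∫ s in Ioi 0, pl γ s * D (F R) (R * x) s =
      (R : ℂ) * ∫ t in Ioi 0, pl γ (R * t) * D (F R) (R * x) (R * t) := by
    rw [h, Complex.real_smul, ← mul_assoc, Complex.ofReal_inv, mul_inv_cancel₀ hR', one_mul]
  rw [h2, ← integral_const_mul, ← integral_const_mul]
  refine setIntegral_congr_fun measurableSet_Ioi fun t ht => ?_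
  have ht0 : 0 < t := ht
  have htc : (t : ℂ) ≠ 0 := by exact_mod_cast ht0.ne'
  simp only [D, pl]
  rw [Real.log_mul hR.ne' ht0.ne']
  have e1 : Complex.exp (I * ((γ * (Real.log R + Real.log t) : ℝ) : ℂ)) =
      Complex.exp (I * ((γ * Real.log R : ℝ) : ℂ)) * Complex.exp (I * ((γ * Real.log t : ℝ) : ℂ)) := by
    rw [← Complex.exp_add]
    congr 1
    push_cast
    ring
  have e2 : Complex.exp (-(I * ((γ * Real.log R : ℝ) : ℂ))) *
      Complex.exp (I * ((γ * Real.log R : ℝ) : ℂ)) = 1 := by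
    rw [← Complex.exp_add, neg_add_cancel, Complex.exp_zero]
  rw [e1, mul_sub R x t, mul_add R x t] 
  push_cast
  field_simp
  rw [mul_assoc, ← Complex.exp_add, neg_add_cancel, Complex.exp_zero, mul_one]

end Pool.Agent.Q165.Car
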