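import Pool.Agent.TH456.TM.Near
import Pool.Agent.TH456.TM.Close

set_option autoImplicit false

/-! # Values of polynomials in two variables at `(x, t)`: one exceptional irreducible factor at every height -/

namespace Pool.Agent.Q165.LM

open Polynomial Finset Pool.Agent.TH456.TM

theorem swap_coeff (P : ℤ[X][X]) (i j : ℕ) : ((Bivariate.swap P).coeff i).coeff j = (P.coeff j).coeff i := by
  induction P using Polynomial.induction_on' with
  | add p q hp hq => simp only [map_add, coeff_add, hp, hq]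
  | monomial n a =>
    induction a using Polynomial.induction_on' with
    | add p q hp hq => simp only [map_add, coeff_add] at hp hq ⊢; rw [hp, hq]
    | monomial m r =>
      rw [Bivariate.swap_monomial_monomial]
      simp only [coeff_monomial]
      by_cases h1 : m = i <;> by_cases h2 : n = j <;> simp [h1, h2, coeff_monomial]

theorem degx_le_iff (P : ℤ[X][X]) (D : ℕ) :
    (∀ j, (P.coeff j).natDegree ≤ D) ↔ (Bivariate.swap P).natDegree ≤ D := by
  constructor
  · intro h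
    rw [natDegree_le_iff_coeff_eq_zero]
    intro i hi
    ext j
    rw [swap_coeff, coeff_zero]
    exact coeff_eq_zero_of_natDegree_lt (lt_of_le_of_lt (h j) hi)
  · intro h j
    rw [natDegree_le_iff_coeff_eq_zero]
    intro i hi
    rw [← swap_coeff, coeff_eq_zero_of_natDegree_lt (lt_of_le_of_lt h hi), coeff_zero]

/-- the sum of the degrees in the two variables -/
noncomputable def dg (P : ℤ[X][X]) : ℕ := P.natDegree + (Bivariate.swap P).natDegree

theorem swap_ne (P : ℤ[X][X]) (hP : P ≠ 0) : Bivariate.swap P ≠ 0 := by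
  intro h
  exact hP ((map_eq_zero_iff _ (Bivariate.swap (R := ℤ)).injective).1 h)

theorem dg_mul (A B : ℤ[X][X]) (hA : A ≠ 0) (hB : B ≠ 0) : dg (A * B) = dg A + dg B := by
  unfold dg
  rw [natDegree_mul hA hB, map_mul, natDegree_mul (swap_ne A hA) (swap_ne B hB)]
  ring

/-- Kronecker's substitution -/
noncomputable def kr (E : ℕ) : ℤ[X][X] →+* ℤ[X] := evalRingHom (X ^ E)

theorem kr_coeff (E : ℕ) (P : ℤ[X][X]) (hP : ∀ j, (P.coeff j).natDegree < E) (i j : ℕ) (hi : i < E) :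
    (kr E P).coeff (i + E * j) = (P.coeff j).coeff i := by
  have h1 : kr E P = ∑ k ∈ range (max P.natDegree j + 1), P.coeff k * X ^ (E * k) := by
    unfold kr
    rw [coe_evalRingHom, eval_eq_sum_range' (show P.natDegree < max P.natDegree j + 1 by omega)]
    refine Finset.sum_congr rfl fun k _ => ?_
    rw [pow_mul]
  rw [h1, finsetSum_coeff, Finset.sum_eq_single j]
  · rw [coeff_mul_X_pow', if_pos (by omega), Nat.add_sub_cancel]
  · intro k _ hkj
    rw [coeff_mul_X_pow']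
    split_ifs with h
    · apply coeff_eq_zero_of_natDegree_lt
      refine lt_of_lt_of_le (hP k) ?_
      have hkj' : k < j := by
        by_contra hcon
        have h2 : j + 1 ≤ k := by omega
        have h3 : E * (j + 1) ≤ E * k := Nat.mul_le_mul_left _ h2
        rw [Nat.mul_add] at h3
        omega
      have h3 : E * (k + 1) ≤ E * j := Nat.mul_le_mul_left _ hkj'
      rw [Nat.mul_add] at h3
      omega
    · rfl
  · intro h
    exfalso
    apply h
    rw [mem_range]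
    omega

theorem kr_ne (E : ℕ) (P : ℤ[X][X]) (hP : ∀ j, (P.coeff j).natDegree < E) (hP0 : P ≠ 0) : kr E P ≠ 0 := by
  intro h
  apply hP0
  ext j i
  rw [coeff_zero, coeff_zero]
  by_cases hi : i < E
  · rw [← kr_coeff E P hP i j hi, h, coeff_zero]
  · exact coeff_eq_zero_of_natDegree_lt (by have := hP j; omega)

theorem kr_bound (E : ℕ) (P : ℤ[X][X]) (hP : ∀ j, (P.coeff j).natDegree < E) (H : ℝ)
    (hH : ∀ j i, |((P.coeff j).coeff i : ℝ)| ≤ H) (n : ℕ) : |((kr E P).coeff n : ℝ)| ≤ H := by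
  have hE : 0 < E := by have := hP 0; omega
  have h1 : n = n % E + E * (n / E) := (Nat.mod_add_div n E).symm
  rw [h1, kr_coeff E P hP _ _ (Nat.mod_lt _ hE)]
  exact hH _ _

theorem kr_deg (E D : ℕ) (P : ℤ[X][X]) (hP : ∀ j, (P.coeff j).natDegree < E) (hD : P.natDegree ≤ D) :
    (kr E P).natDegree ≤ E * (D + 1) := by
  rw [natDegree_le_iff_coeff_eq_zero]
  intro n hn
  have hE : 0 < E := by have := hP 0; omega
  have h1 : n = n % E + E * (n / E) := (Nat.mod_add_div n E).symm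
  rw [h1, kr_coeff E P hP _ _ (Nat.mod_lt _ hE)]
  have h2 : D + 1 ≤ n / E := by
    rw [Nat.le_div_iff_mul_le hE, mul_comm]
    exact hn.le
  have h3 : P.coeff (n / E) = 0 := coeff_eq_zero_of_natDegree_lt (by omega)
  rw [h3, coeff_zero]

/-- the constant in the bound for the height of a factor -/
noncomputable def cD (D : ℕ) : ℝ := 2 ^ ((D + 1) * (D + 1)) * ((((D + 1) * (D + 1) : ℕ) : ℝ) + 1)

theorem cD_pos (D : ℕ) : 1 ≤ cD D := by
  unfold cD
  have h1 : (1 : ℝ) ≤ 2 ^ ((D + 1) * (D + 1)) := one_le_pow₀ (by norm_num)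
  have h2 : (0 : ℝ) ≤ (((D + 1) * (D + 1) : ℕ) : ℝ) := Nat.cast_nonneg _
  nlinarith

theorem factor_height (D : ℕ) (A B : ℤ[X][X]) (hAB : A * B ≠ 0) (h1 : (A * B).natDegree ≤ D)
    (h2 : ∀ j, ((A * B).coeff j).natDegree ≤ D) (H : ℝ) (hH : ∀ j i, |(((A * B).coeff j).coeff i : ℝ)| ≤ H) :
    A.natDegree ≤ D ∧ (∀ j, (A.coeff j).natDegree ≤ D) ∧ (hgt A : ℝ) ≤ cD D * H := by
  have hA0 : A ≠ 0 := left_ne_zero_of_mul hAB
  have hB0 : B ≠ 0 := right_ne_zero_of_mul hAB
  have hAy : A.natDegree ≤ D := by rw [natDegree_mul hA0 hB0] at h1; omega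
  have hBy : B.natDegree ≤ D := by rw [natDegree_mul hA0 hB0] at h1; omega
  have h3 := (degx_le_iff _ _).1 h2
  rw [map_mul, natDegree_mul (swap_ne A hA0) (swap_ne B hB0)] at h3
  have hAx : ∀ j, (A.coeff j).natDegree ≤ D := (degx_le_iff _ _).2 (by omega)
  have hBx : ∀ j, (B.coeff j).natDegree ≤ D := (degx_le_iff _ _).2 (by omega)
  have hH0 : 0 ≤ H := (abs_nonneg _).trans (hH 0 0)
  refine ⟨hAy, hAx, ?_⟩
  have hE : ∀ P : ℤ[X][X], (∀ j, (P.coeff j).natDegree ≤ D) → ∀ j, (P.coeff j).natDegree < D + 1 :=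
    fun P h j => by have := h j; omega
  obtain ⟨n, hn⟩ : ∃ n : ℕ, n = (D + 1) * (D + 1) := ⟨_, rfl⟩
  have key : ∀ k : ℕ, |((kr (D + 1) A).coeff k : ℝ)| ≤ cD D * H := by
    intro k
    have hB1 : 1 ≤ ((kr (D + 1) B).map (Int.castRingHom ℂ)).mahlerMeasure :=
      one_le_mahlerMeasure_of_ne_zero (kr_ne _ B (hE B hBx) hB0)
    have e1 := norm_coeff_le_choose_mul_mahlerMeasure_of_one_le_mahlerMeasure k
      ((kr (D + 1) A).map (Int.castRingHom ℂ)) ((kr (D + 1) B).map (Int.castRingHom ℂ)) hB1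
    rw [← Polynomial.map_mul, ← map_mul, coeff_map, eq_intCast, Complex.norm_intCast] at e1
    have hdegA : ((kr (D + 1) A).map (Int.castRingHom ℂ)).natDegree ≤ n := by
      rw [hn]
      exact natDegree_map_le.trans (kr_deg _ D A (hE A hAx) hAy)
    have e2 : ((((kr (D + 1) A).map (Int.castRingHom ℂ)).natDegree.choose k : ℕ) : ℝ) ≤ 2 ^ n := by
      have h4 : ((kr (D + 1) A).map (Int.castRingHom ℂ)).natDegree.choose k ≤
          2 ^ ((kr (D + 1) A).map (Int.castRingHom ℂ)).natDegree := Nat.choose_le_two_pow _ _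
      have h5 : 2 ^ ((kr (D + 1) A).map (Int.castRingHom ℂ)).natDegree ≤ 2 ^ n :=
        Nat.pow_le_pow_right (by norm_num) hdegA
      exact_mod_cast h4.trans h5
    have e3 : ((kr (D + 1) (A * B)).map (Int.castRingHom ℂ)).mahlerMeasure ≤ ((n : ℝ) + 1) * H := by
      refine (mahlerMeasure_le_sum_norm_coeff _).trans ?_
      rw [Polynomial.sum_over_range' _ (fun _ => norm_zero) (n + 1) (by
        have h6 := natDegree_map_le (p := kr (D + 1) (A * B)) (f := Int.castRingHom ℂ)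
        have h7 := kr_deg (D + 1) D (A * B) (hE _ h2) h1
        omega)]
      calc ∑ a ∈ range (n + 1), ‖((kr (D + 1) (A * B)).map (Int.castRingHom ℂ)).coeff a‖
          ≤ ∑ _a ∈ range (n + 1), H := by
            refine Finset.sum_le_sum fun a _ => ?_
            rw [coeff_map, eq_intCast, Complex.norm_intCast]
            exact kr_bound _ _ (hE _ h2) H hH a
        _ = _ := by
            rw [Finset.sum_const, card_range, nsmul_eq_mul]
            push_cast
            ring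
    calc |((kr (D + 1) A).coeff k : ℝ)| ≤ _ := e1
      _ ≤ 2 ^ n * (((n : ℝ) + 1) * H) := mul_le_mul e2 e3 (mahlerMeasure_nonneg _) (by positivity)
      _ = cD D * H := by
          unfold cD
          rw [← hn]
          ring
  have h5 : ((hgt A : ℕ) : ℝ) ≤ ((⌊cD D * H⌋₊ : ℕ) : ℝ) := by
    have h6 : hgt A ≤ ⌊cD D * H⌋₊ := by
      unfold hgt
      refine Finset.sup_le fun j _ => Finset.sup_le fun i _ => ?_
      refine Nat.le_floor ?_
      by_cases hi : i < D + 1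
      · have h7 := key (i + (D + 1) * j)
        rw [kr_coeff _ A (hE A hAx) i j hi] at h7
        rwa [← Int.cast_abs, Int.abs_eq_natAbs, Int.cast_natCast] at h7
      · rw [coeff_eq_zero_of_natDegree_lt (by have := hAx j; omega)]
        simp only [Int.natAbs_zero, Nat.cast_zero]
        have := cD_pos D
        positivity
    exact_mod_cast h6
  exact h5.trans (Nat.floor_le (by have := cD_pos D; positivity))

theorem vl_mul (x t : ℂ) (A B : ℤ[X][X]) : vl x t (A * B) = vl x t A * vl x t B := by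
  unfold vl
  rw [Polynomial.map_mul, eval_mul]

theorem dg_zero (A : ℤ[X][X]) (h : dg A = 0) : ∃ a : ℤ, A = C (C a) := by
  unfold dg at h
  have h1 : A.natDegree = 0 := by omega
  have h2 : ∀ j, (A.coeff j).natDegree ≤ 0 := (degx_le_iff A 0).2 (by omega)
  refine ⟨(A.coeff 0).coeff 0, ?_⟩
  rw [← eq_C_of_natDegree_le_zero (h2 0)]
  exact eq_C_of_natDegree_eq_zero h1

/-- the divisors of `P` are not small if the irreducible ones are not -/
theorem lower (x t : ℂ) (η : ℝ) (hη0 : 0 < η) (hη1 : η ≤ 1) (P : ℤ[X][X])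
    (hirr : ∀ A : ℤ[X][X], Irreducible A → A ∣ P → dg A ≠ 0 → η ≤ ‖vl x t A‖) :
    P ≠ 0 → η ^ dg P ≤ ‖vl x t P‖ := by
  induction P using WfDvdMonoid.induction_on_irreducible with
  | zero => intro h; exact absurd rfl h
  | unit u hu =>
    intro _
    obtain ⟨r, hr, hru⟩ := Polynomial.isUnit_iff.1 hu
    obtain ⟨s, hs, hsr⟩ := Polynomial.isUnit_iff.1 hr
    have h1 : ‖vl x t u‖ = 1 := by
      rw [← hru, ← hsr]
      unfold vl
      rcases Int.isUnit_iff.1 hs with h | h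
      · rw [h]; simp
      · rw [h]; simp
    rw [h1]
    exact pow_le_one₀ hη0.le hη1
  | mul a i ha hi ih =>
    intro _
    have h1 := ih (fun A hA hAa hd => hirr A hA (dvd_mul_of_dvd_right hAa i) hd) ha
    rw [dg_mul i a hi.ne_zero ha, vl_mul, norm_mul, pow_add]
    refine mul_le_mul ?_ h1 (by positivity) (norm_nonneg _)
    by_cases hd : dg i = 0
    · obtain ⟨z, hz⟩ := dg_zero i hd
      have hz0 : z ≠ 0 := by
        rintro rfl
        exact hi.ne_zero (by rw [hz, C_0, C_0])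
      rw [hd, pow_zero, hz]
      unfold vl
      simp only [map_C, eval_C, σx]
      have h2 : ‖(aeval x : ℤ[X] →ₐ[ℤ] ℂ).toRingHom (C z)‖ = |(z : ℝ)| := by
        simp
      rw [h2, ← Int.cast_abs]
      exact_mod_cast Int.one_le_abs hz0
    · have h2 := hirr i hi (dvd_mul_right i a) hd
      refine le_trans ?_ h2
      exact pow_le_of_le_one hη0.le hη1 hd

/-- the normalisation -/
theorem normalise (A : ℤ[X][X]) (hA : Irreducible A) (D : ℕ) (h1 : A.natDegree ≤ D)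
    (h2 : ∀ j, (A.coeff j).natDegree ≤ D) : ∃ B ∈ IR D, (B = A ∨ B = -A) := by
  have h0 : A.leadingCoeff.leadingCoeff ≠ 0 := by
    rw [Ne, leadingCoeff_eq_zero, leadingCoeff_eq_zero]
    exact hA.ne_zero
  rcases lt_or_gt_of_ne h0 with h | h
  · refine ⟨-A, ⟨(Associated.irreducible (show Associated A (-A) from ⟨-1, by simp⟩) hA), by rwa [natDegree_neg], fun j => by rw [coeff_neg, natDegree_neg]; exact h2 j, ?_⟩, Or.inr rfl⟩
    rw [leadingCoeff_neg, leadingCoeff_neg]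
    linarith
  · exact ⟨A, ⟨hA, h1, h2, h⟩, Or.inl rfl⟩

theorem hgt_neg (A : ℤ[X][X]) : hgt (-A) = hgt A := by
  unfold hgt
  rw [support_neg]
  refine Finset.sup_congr rfl fun j _ => ?_
  rw [coeff_neg, support_neg]
  refine Finset.sup_congr rfl fun i _ => ?_
  rw [coeff_neg, Int.natAbs_neg]

theorem one_factor (x : ℂ) (hx : MeasT x) (D : ℕ) (hD : 1 ≤ D) :
    ∃ κ : ℝ, 0 < κ ∧ ∀ T : ℝ, ∃ c : ℝ, 0 < c ∧ ∀ t : ℂ, ‖t‖ ≤ T → ∀ H : ℝ, 1 ≤ H →
      ∃ R : ℤ[X][X], Irreducible R ∧ ∀ P : ℤ[X][X], P ≠ 0 → P.natDegree ≤ D → (∀ j, (P.coeff j).natDegree ≤ D) →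
        (∀ j i, |((P.coeff j).coeff i : ℝ)| ≤ H) → ¬ R ∣ P → c * H ^ (-κ) ≤ ‖vl x t P‖ := by
  classical
  obtain ⟨κ, hκ, hcore⟩ := core x hx D hD
  refine ⟨2 * D * κ, by positivity, fun T => ?_⟩
  obtain ⟨C, hC, hcore⟩ := hcore T
  have hcD := cD_pos D
  obtain ⟨μ, hμ⟩ : ∃ μ : ℝ, μ = min 1 (C * (cD D) ^ (-κ)) := ⟨_, rfl⟩
  have hμ0 : 0 < μ := by rw [hμ]; positivity
  have hμ1 : μ ≤ 1 := by rw [hμ]; exact min_le_left _ _
  refine ⟨μ ^ (2 * D), by positivity, fun t ht H hH => ?_⟩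
  have hH0 : 0 < H := by linarith
  obtain ⟨η, hη⟩ : ∃ η : ℝ, η = μ * H ^ (-κ) := ⟨_, rfl⟩
  have hη0 : 0 < η := by rw [hη]; positivity
  have hHκ : H ^ (-κ) ≤ 1 := Real.rpow_le_one_of_one_le_of_nonpos hH (by linarith)
  have hη1 : η ≤ 1 := by
    rw [hη]
    exact mul_le_one₀ hμ1 (by positivity) hHκ
  have hηC : η ≤ C * (cD D * H) ^ (-κ) := by
    rw [hη, Real.mul_rpow (by linarith) hH0.le, ← mul_assoc]
    refine mul_le_mul_of_nonneg_right ?_ (by positivity)
    rw [hμ]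
    exact min_le_right _ _
  -- the exceptional polynomial
  have hex : ∃ R : ℤ[X][X], Irreducible R ∧ ∀ B ∈ IR D, (hgt B : ℝ) ≤ cD D * H → ‖vl x t B‖ < η → B = R := by
    by_cases h : ∃ R ∈ IR D, (hgt R : ℝ) ≤ cD D * H ∧ ‖vl x t R‖ < η
    · obtain ⟨R, hR, hRH, hRη⟩ := h
      refine ⟨R, hR.1, fun B hB hBH hBη => ?_⟩
      by_contra hne
      have h1 := hcore t ht B hB R hR hne (cD D * H) hBH hRH
      have h2 : max ‖vl x t B‖ ‖vl x t R‖ < η := max_lt hBη hRη
      linarith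
    · push Not at h
      refine ⟨X, irreducible_X, fun B hB hBH hBη => ?_⟩
      exact absurd hBη (not_lt.2 (h B hB hBH))
  obtain ⟨R, hR, hRu⟩ := hex
  refine ⟨R, hR, fun P hP hPy hPx hPH hRP => ?_⟩
  have h1 := lower x t η hη0 hη1 P (fun A hA hAP hd => by
    obtain ⟨B, hB⟩ := hAP
    obtain ⟨a1, a2, a3⟩ := factor_height D A B (hB ▸ hP) (hB ▸ hPy) (hB ▸ hPx) H (hB ▸ hPH)
    by_contra hcon
    push Not at hcon
    obtain ⟨A', hA', hAA'⟩ := normalise A hA D a1 a2
    have h2 : ‖vl x t A'‖ < η := by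
      rcases hAA' with h | h
      · rw [h]; exact hcon
      · rw [h]
        have h3 : vl x t (-A) = - vl x t A := by
          unfold vl
          rw [Polynomial.map_neg, eval_neg]
        rw [h3, norm_neg]
        exact hcon
    have h4 : (hgt A' : ℝ) ≤ cD D * H := by
      rcases hAA' with h | h
      · rw [h]; exact a3
      · rw [h, hgt_neg]; exact a3
    have h5 := hRu A' hA' h4 h2
    apply hRP
    rw [← h5, hB]
    rcases hAA' with h | h
    · rw [h]; exact dvd_mul_right _ _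
    · rw [h]; exact (neg_dvd (a := A)).2 (dvd_mul_right _ _)) hP
  have h6 : dg P ≤ 2 * D := by
    unfold dg
    have := (degx_le_iff P D).1 hPx
    omega
  calc μ ^ (2 * D) * H ^ (-(2 * D * κ)) = η ^ (2 * D) := by
        rw [hη, mul_pow, ← Real.rpow_natCast (H ^ (-κ)), ← Real.rpow_mul hH0.le]
        congr 2
        push_cast
        ring
    _ ≤ η ^ dg P := pow_le_pow_of_le_one hη0.le hη1 h6
    _ ≤ _ := h1

end Pool.Agent.Q165.LM

namespace Pool.Agent.Q165.LM

open Polynomial Finset Pool.Agent.TH456.TM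

/-- logarithms of roots of Gaussian rational numbers -/
theorem measT_gaussLog (l : ℂ) (hl : l ≠ 0) (m : ℕ) (hm : 1 ≤ m) (p q : ℚ)
    (h : Complex.exp (m * l) = p + q * Complex.I) : MeasT l := by
  have hm0 : (m : ℂ) ≠ 0 := by exact_mod_cast (by omega : m ≠ 0)
  have h1 : MeasT ((m : ℂ) * l) := by
    have h2 := measT_gauss ((m : ℂ) * l) (mul_ne_zero hm0 hl) ⟨p.num * q.den, q.num * p.den⟩
      ⟨p.den * q.den, 0⟩ 1 (by
        intro h0
        have h3 := congrArg Zsqrtd.re h0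
        simp only [Zsqrtd.re_zero] at h3
        have h4 := p.den_pos
        have h5 := q.den_pos
        have h6 : (p.den : ℤ) * q.den ≠ 0 := by positivity
        exact h6 h3) (by simp) (by
        rw [h, GaussianInt.toComplex_def', GaussianInt.toComplex_def']
        have e1 : (p : ℂ) * (p.den : ℂ) = p.num := by exact_mod_cast Rat.mul_den_eq_num p
        have e2 : (q : ℂ) * (q.den : ℂ) = q.num := by exact_mod_cast Rat.mul_den_eq_num q
        push_cast
        linear_combination (q.den : ℂ) * e1 + (p.den : ℂ) * Complex.I * e2)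
    rwa [map_one, one_mul] at h2
  have h3 := measT_mul_alg h1 ((m : ℂ)⁻¹) (by
    have h4 : IsAlgebraic ℤ ((m : ℂ)) := isAlgebraic_nat m
    exact h4.inv) (inv_ne_zero hm0)
  have h5 : (m : ℂ) * l * (m : ℂ)⁻¹ = l := by field_simp
  rwa [h5] at h3

theorem main (l : ℂ) (hl : MeasT l) (D : ℕ) (hD : 1 ≤ D) :
    ∃ κ : ℝ, 0 < κ ∧
      (∀ T : ℝ, ∃ c : ℝ, 0 < c ∧ ∀ t : ℂ, ‖t‖ ≤ T → ∀ H : ℝ, 1 ≤ H →
        ∃ R : ℤ[X][X], Irreducible R ∧ ∀ P : ℤ[X][X], P ≠ 0 → P.natDegree ≤ D → (∀ j, (P.coeff j).natDegree ≤ D) →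
          (∀ j i, |((P.coeff j).coeff i : ℝ)| ≤ H) → ¬ R ∣ P → c * H ^ (-κ) ≤ ‖vl l t P‖) ∧
      (∀ (t : ℂ) (w ρ : ℝ), 1 < ρ → ρ < w / κ → ∃ C : ℝ, ∀ X : ℝ, 3 ≤ X →
        {P ∈ {P : ℤ[X][X] | P ∈ IR D ∧ ‖vl l t P‖ ≤ (hgt P : ℝ) ^ (-w)} | (hgt P : ℝ) ≤ X}.Finite ∧
        ({P ∈ {P : ℤ[X][X] | P ∈ IR D ∧ ‖vl l t P‖ ≤ (hgt P : ℝ) ^ (-w)} | (hgt P : ℝ) ≤ X}.ncard : ℝ) ≤
          Real.log (Real.log X) / Real.log ρ + C) := by
  obtain ⟨κ₁, hκ₁, h1⟩ := one_factor l hl D hD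
  obtain ⟨κ₂, hκ₂, h2⟩ := core l hl D hD
  refine ⟨max κ₁ κ₂, lt_max_of_lt_left hκ₁, fun T => ?_, fun t w ρ hρ hρw => ?_⟩
  · obtain ⟨c, hc, h1⟩ := h1 T
    refine ⟨c, hc, fun t ht H hH => ?_⟩
    obtain ⟨R, hR, h1⟩ := h1 t ht H hH
    refine ⟨R, hR, fun P a1 a2 a3 a4 a5 => ?_⟩
    refine le_trans (mul_le_mul_of_nonneg_left ?_ hc.le) (h1 P a1 a2 a3 a4 a5)
    exact Real.rpow_le_rpow_of_exponent_le hH (by have := le_max_left κ₁ κ₂; linarith)
  · have hw0 : 0 < w / max κ₁ κ₂ := by linarith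
    have hw : 0 < w := by
      have h3 := mul_pos hw0 (lt_max_of_lt_left hκ₁ : 0 < max κ₁ κ₂)
      rwa [div_mul_cancel₀ _ (lt_max_of_lt_left hκ₁ : 0 < max κ₁ κ₂).ne'] at h3
    refine sparse_alg l D κ₂ hκ₂ h2 t w ρ hρ (hρw.trans_le ?_)
    exact div_le_div_of_nonneg_left hw.le hκ₂ (le_max_right _ _)

end Pool.Agent.Q165.LM
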