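import Pool.Agent.Q29.MixFam
import Pool.Agent.TH456.TM.Inst

/-!
# Monomials `z ^ a t ^ k`: a simultaneous measure
-/

set_option autoImplicit false

namespace Pool.Agent.Q165.Mono

open Polynomial Finset Pool.Agent.TH456.TM Pool.Agent.Q29.Mix

lemma inv_left {a b : ℂ} {D : ℕ} {κ c : ℝ} (ha : a ≠ 0) (h : PairM a b D κ c) :
    PairM a⁻¹ b D κ (c / (max 1 ‖a‖) ^ D) := by
  intro P Q hP hQ hPD hQD H hH hPH hQH
  have hM : 1 ≤ (max 1 ‖a‖) ^ D := one_le_pow₀ (le_max_left _ _)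
  have hM0 : 0 < (max 1 ‖a‖) ^ D := by linarith
  have hR : P.reverse ≠ 0 := by
    intro h0
    exact hP (reverse_eq_zero.1 h0)
  have h1 := h P.reverse Q hR hQ ((reverse_natDegree_le P).trans hPD) hQD H hH (by
    intro k
    rw [coeff_reverse]
    exact hPH _) hQH
  have h2 : aeval a P.reverse = a ^ P.natDegree * aeval a⁻¹ P := by
    let _ : Invertible a⁻¹ := invertibleOfNonzero (inv_ne_zero ha)
    have h3 := eval₂_reverse_mul_pow (algebraMap ℤ ℂ) a⁻¹ P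
    rw [invOf_eq_inv, inv_inv] at h3
    rw [aeval_def, aeval_def, ← h3]
    have h4 : a ^ P.natDegree * a⁻¹ ^ P.natDegree = 1 := by
      rw [← mul_pow, mul_inv_cancel₀ ha, one_pow]
    calc eval₂ (algebraMap ℤ ℂ) a P.reverse
        = eval₂ (algebraMap ℤ ℂ) a P.reverse * (a ^ P.natDegree * a⁻¹ ^ P.natDegree) := by
          rw [h4, mul_one]
      _ = _ := by ring
  have h5 : ‖aeval a P.reverse‖ ≤ (max 1 ‖a‖) ^ D * ‖aeval a⁻¹ P‖ := by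
    rw [h2, norm_mul, norm_pow]
    have h6 : ‖a‖ ^ P.natDegree ≤ (max 1 ‖a‖) ^ D :=
      (pow_le_pow_left₀ (norm_nonneg _) (le_max_right _ _) _).trans
        (pow_le_pow_right₀ (le_max_left _ _) hPD)
    gcongr
  have h7 : ‖aeval b Q‖ ≤ (max 1 ‖a‖) ^ D * ‖aeval b Q‖ :=
    le_mul_of_one_le_left (norm_nonneg _) hM
  have h8 : max ‖aeval a P.reverse‖ ‖aeval b Q‖ ≤
      (max 1 ‖a‖) ^ D * max ‖aeval a⁻¹ P‖ ‖aeval b Q‖ := by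
    refine max_le (h5.trans ?_) (h7.trans ?_)
    · gcongr
      exact le_max_left _ _
    · gcongr
      exact le_max_right _ _
  have h9 := h1.trans h8
  rw [div_mul_eq_mul_div, div_le_iff₀ hM0, mul_comm _ ((max 1 ‖a‖) ^ D)]
  exact h9

lemma pow_both {a b : ℂ} {D m : ℕ} {κ c : ℝ} (k l : ℕ) (hk : k ≠ 0) (hl : l ≠ 0) (hkm : k ≤ m)
    (hlm : l ≤ m) (h : PairM a b (D * m) κ c) : PairM (a ^ k) (b ^ l) D κ c := by
  intro P Q hP hQ hPD hQD H hH hPH hQH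
  have hex : ∀ (R : ℤ[X]) (n : ℕ), n ≠ 0 → (∀ k, |((R.coeff k : ℤ) : ℝ)| ≤ H) →
      ∀ k, |(((expand ℤ n R).coeff k : ℤ) : ℝ)| ≤ H := by
    intro R n hn hR k
    rw [coeff_expand (Nat.pos_of_ne_zero hn)]
    split_ifs with h1
    · exact hR _
    · simp only [Int.cast_zero, abs_zero]
      linarith
  have h1 := h (expand ℤ k P) (expand ℤ l Q) ((expand_ne_zero (Nat.pos_of_ne_zero hk)).2 hP)
    ((expand_ne_zero (Nat.pos_of_ne_zero hl)).2 hQ)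
    (by rw [natDegree_expand]; exact Nat.mul_le_mul hPD hkm)
    (by rw [natDegree_expand]; exact Nat.mul_le_mul hQD hlm) H hH (hex P k hk hPH) (hex Q l hl hQH)
  rwa [expand_aeval, expand_aeval] at h1

/-- **monomials** -/
theorem pair_mono (z : ℝ) (hz0 : 0 < z) (hz : MeasT (z : ℂ)) (D : ℕ) (a b k l : ℤ) (hk : k ≠ 0)
    (hl : l ≠ 0) (hne : a * l ≠ b * k) : ∃ κ : ℝ, 0 < κ ∧ ∀ t : ℂ, t ≠ 0 → ∃ c : ℝ, 0 < c ∧
      PairM ((z : ℂ) ^ a * t ^ k) ((z : ℂ) ^ b * t ^ l) D κ c := by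
  obtain ⟨q, hq⟩ : ∃ q : ℚ, q = (b : ℚ) / l - (a : ℚ) / k := ⟨_, rfl⟩
  have hk' : (k : ℚ) ≠ 0 := by exact_mod_cast hk
  have hl' : (l : ℚ) ≠ 0 := by exact_mod_cast hl
  have hq0 : q ≠ 0 := by
    rw [hq, Ne, sub_eq_zero, div_eq_div_iff hl' hk']
    intro h
    exact hne (by exact_mod_cast h.symm)
  have hx := measT_rpow z hz0 hz q hq0
  obtain ⟨κ, hκ, h⟩ := mul_core _ hx (D * (k.natAbs + l.natAbs))
  refine ⟨κ, hκ, fun t ht => ?_⟩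
  obtain ⟨s, hs⟩ : ∃ s : ℂ, s = ((z ^ (((a : ℚ) / k : ℚ) : ℝ) : ℝ) : ℂ) * t := ⟨_, rfl⟩
  have hzp : ∀ r : ℝ, ((z ^ r : ℝ) : ℂ) ≠ 0 := fun r => by
    exact_mod_cast (Real.rpow_pos_of_pos hz0 r).ne'
  have hs0 : s ≠ 0 := by rw [hs]; exact mul_ne_zero (hzp _) ht
  have hu : s ^ k = (z : ℂ) ^ a * t ^ k := by
    rw [hs, mul_zpow]
    congr 1
    rw [← Complex.ofReal_zpow, ← Complex.ofReal_zpow, ← Real.rpow_intCast, ← Real.rpow_mul hz0.le,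
      ← Real.rpow_intCast]
    congr 2
    have : (((a : ℚ) / k : ℚ)) * k = a := by field_simp
    exact_mod_cast this
  have hv : (((z ^ (q : ℝ) : ℝ) : ℂ) * s) ^ l = (z : ℂ) ^ b * t ^ l := by
    rw [hs, ← mul_assoc, mul_zpow]
    congr 1
    rw [← Complex.ofReal_mul, ← Real.rpow_add hz0, ← Complex.ofReal_zpow, ← Complex.ofReal_zpow,
      ← Real.rpow_intCast, ← Real.rpow_mul hz0.le, ← Real.rpow_intCast]
    congr 2
    have : (q + ((a : ℚ) / k : ℚ)) * l = b := by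
      rw [hq]
      field_simp
      ring
    exact_mod_cast this
  obtain ⟨C, hC, h⟩ := h s hs0
  obtain ⟨w, hw⟩ : ∃ w : ℂ, w = ((z ^ (q : ℝ) : ℝ) : ℂ) * s := ⟨_, rfl⟩
  have hw0 : w ≠ 0 := by rw [hw]; exact mul_ne_zero (hzp _) hs0
  rw [← hw] at h hv
  have hp : PairM (s ^ k.natAbs) (w ^ l.natAbs) D κ C :=
    pow_both k.natAbs l.natAbs (Int.natAbs_ne_zero.2 hk) (Int.natAbs_ne_zero.2 hl)
      (Nat.le_add_right _ _) (Nat.le_add_left _ _) h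
  have key : ∀ (y : ℂ) (n : ℤ) (b' : ℂ), y ≠ 0 → (∃ c : ℝ, 0 < c ∧ PairM (y ^ n.natAbs) b' D κ c) →
      ∃ c : ℝ, 0 < c ∧ PairM (y ^ n) b' D κ c := by
    intro y n b' hy ⟨c, hc, hp⟩
    rcases Int.natAbs_eq n with hn | hn
    · refine ⟨c, hc, ?_⟩
      rw [hn, zpow_natCast]
      exact hp
    · refine ⟨c / (max 1 ‖y ^ n.natAbs‖) ^ D, ?_, ?_⟩
      · have : 0 < max 1 ‖y ^ n.natAbs‖ := lt_max_of_lt_left one_pos
        positivity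
      · have e : y ^ n = (y ^ n.natAbs)⁻¹ := by
          conv_lhs => rw [hn]
          rw [zpow_neg, zpow_natCast]
        rw [e]
        exact inv_left (pow_ne_zero _ hy) hp
  obtain ⟨c₁, hc₁, hp₁⟩ := key s k _ hs0 ⟨C, hC, hp⟩
  obtain ⟨c₂, hc₂, hp₂⟩ := key w l _ hw0 ⟨c₁, hc₁, hp₁.symm⟩
  refine ⟨c₂, hc₂, ?_⟩
  rw [← hu, ← hv]
  exact hp₂.symm

/-- pairwise non-proportional monomials -/
theorem fam_mono (z : ℝ) (hz0 : 0 < z) (hz : MeasT (z : ℂ)) (F : Finset (ℤ × ℤ))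
    (hF : ∀ e ∈ F, e.2 ≠ 0) (hFF : ∀ e ∈ F, ∀ e' ∈ F, e ≠ e' → e.1 * e'.2 ≠ e'.1 * e.2) (D : ℕ) :
    ∃ κ : ℝ, 0 < κ ∧ ∀ t : ℂ, t ≠ 0 → ∃ C : ℝ, 0 < C ∧
      (∀ i j : F, i ≠ j → ∀ P Q : ℤ[X], P ≠ 0 → Q ≠ 0 → P.natDegree ≤ D →
        Q.natDegree ≤ D → ∀ H : ℝ, (ht P : ℝ) ≤ H → (ht Q : ℝ) ≤ H →
        C * H ^ (-κ) ≤ max ‖aeval ((z : ℂ) ^ i.1.1 * t ^ i.1.2) P‖ ‖aeval ((z : ℂ) ^ j.1.1 * t ^ j.1.2) Q‖) ∧
      (∀ i : F, ∀ P ∈ I1 D, ∀ Q ∈ I1 D, P ≠ Q → ∀ H : ℝ, (ht P : ℝ) ≤ H → (ht Q : ℝ) ≤ H →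
        C * H ^ (-κ) ≤ max ‖aeval ((z : ℂ) ^ i.1.1 * t ^ i.1.2) P‖ ‖aeval ((z : ℂ) ^ i.1.1 * t ^ i.1.2) Q‖) := by
  refine fam_of_pairs (fun (i : F) t => (z : ℂ) ^ i.1.1 * t ^ i.1.2) (fun t => t ≠ 0) z hz D ?_
  intro i j hij
  exact pair_mono z hz0 hz D i.1.1 j.1.1 i.1.2 j.1.2 (hF i i.2) (hF j j.2)
    (hFF i i.2 j j.2 fun e => hij (Subtype.ext e))

end Pool.Agent.Q165.Mono
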