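import Pool.Agent.Q165.Mono
import Pool.Agent.TH456.TM.AlgDep
import Pool.Agent.TH456.TM.Close

/-!
# `y + t` and `y t ^ k` with `y` algebraic over `ℤ[x]`: simultaneous measures
-/

set_option autoImplicit false

namespace Pool.Agent.Q165.MonoAlg

open Polynomial Finset Pool.Agent.TH456.TM Pool.Agent.Q29.Mix Pool.Agent.Q165.Mono

/-- `y` is algebraic over `ℤ[x]` -/
abbrev AlgOver (x y : ℂ) : Prop := IsAlgebraic (Algebra.adjoin ℤ ({x} : Set ℂ)) y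

theorem pair_add (x : ℂ) (hx : MeasT x) (D : ℕ) (a b : ℂ) (ha : AlgOver x a) (hb : AlgOver x b)
    (hab : Transcendental ℤ (a - b)) :
    ∃ κ : ℝ, 0 < κ ∧ ∀ t : ℂ, ∃ c : ℝ, 0 < c ∧ PairM (a + t) (b + t) D κ c := by
  have hm : MeasT (a - b) := measT_of_isAlgebraic hx _ (ha.sub hb) hab
  obtain ⟨κ, hκ, h⟩ := add_core _ hm D
  refine ⟨κ, hκ, fun t => ?_⟩
  obtain ⟨c, hc, h⟩ := h ‖b + t‖
  have hp : PairM (b + t) (a + t) D κ c := by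
    intro P Q hP hQ hPD hQD H hH hPH hQH
    have h2 := h (b + t) le_rfl P Q hP hQ hPD hQD H hH hPH hQH
    have h3 : a - b + (b + t) = a + t := by ring
    rwa [h3] at h2
  exact ⟨c, hc, hp.symm⟩

theorem pair_pow (q : ℂ) (hq : MeasT q) (D : ℕ) (k l : ℤ) (hk : k ≠ 0) (hl : l ≠ 0) :
    ∃ κ : ℝ, 0 < κ ∧ ∀ s : ℂ, s ≠ 0 → ∃ c : ℝ, 0 < c ∧ PairM (s ^ k) ((q * s) ^ l) D κ c := by
  have hq0 : q ≠ 0 := measT_ne_zero hq
  obtain ⟨κ, hκ, h⟩ := mul_core _ hq (D * (k.natAbs + l.natAbs))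
  refine ⟨κ, hκ, fun s hs0 => ?_⟩
  obtain ⟨C, hC, h⟩ := h s hs0
  obtain ⟨w, hw⟩ : ∃ w : ℂ, w = q * s := ⟨_, rfl⟩
  have hw0 : w ≠ 0 := by rw [hw]; exact mul_ne_zero hq0 hs0
  rw [← hw] at h ⊢
  have hp : PairM (s ^ k.natAbs) (w ^ l.natAbs) D κ C :=
    pow_both k.natAbs l.natAbs (Int.natAbs_ne_zero.2 hk) (Int.natAbs_ne_zero.2 hl)
      (Nat.le_add_right _ _) (Nat.le_add_left _ _) h
  have key : ∀ (y : ℂ) (n : ℤ) (b' : ℂ), y ≠ 0 → (∃ c : ℝ, 0 < c ∧ PairM (y ^ n.natAbs) b' D κ c) →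
      ∃ c : ℝ, 0 < c ∧ PairM (y ^ n) b' D κ c := by
    intro y n b' hy ⟨c, hc, hp⟩
    rcases Int.natAbs_eq n with hn | hn
    · refine ⟨c, hc, ?_⟩
      rw [hn, zpow_natCast]
      exact hp
    · refine ⟨c / (max 1 ‖y ^ n.natAbs‖) ^ D, ?_, ?_⟩
      · have : 0 < max 1 ‖y ^ n.natAbs‖ := lt_max_of_lt_left one_pos
        positivity
      · have e : y ^ n = (y ^ n.natAbs)⁻¹ := by
          conv_lhs => rw [hn]
          rw [zpow_neg, zpow_natCast]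
        rw [e]
        exact inv_left (pow_ne_zero _ hy) hp
  obtain ⟨c₁, hc₁, hp₁⟩ := key s k _ hs0 ⟨C, hC, hp⟩
  obtain ⟨c₂, hc₂, hp₂⟩ := key w l _ hw0 ⟨c₁, hc₁, hp₁.symm⟩
  exact ⟨c₂, hc₂, hp₂.symm⟩

lemma exists_root (a : ℂ) (k : ℤ) (hk : k ≠ 0) : ∃ r : ℂ, r ^ k = a := by
  obtain ⟨r, hr⟩ := IsAlgClosed.exists_pow_nat_eq a (Int.natAbs_pos.2 hk)
  rcases Int.natAbs_eq k with h | h
  · refine ⟨r, ?_⟩
    rw [h, zpow_natCast, hr]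
  · refine ⟨r⁻¹, ?_⟩
    rw [h, zpow_neg, zpow_natCast, inv_pow, inv_inv, hr]

lemma alg_zpow {R : Type*} [CommRing R] [IsDomain R] [Algebra R ℂ] (a : ℂ) (k : ℤ) (h : IsAlgebraic R a) :
    IsAlgebraic R (a ^ k) := by
  rcases Int.natAbs_eq k with hk | hk
  · rw [hk, zpow_natCast]
    exact h.pow _
  · rw [hk, zpow_neg, zpow_natCast]
    exact (h.pow _).inv

lemma alg_of_zpow {R : Type*} [CommRing R] [IsDomain R] [Algebra R ℂ] (a : ℂ) (k : ℤ) (hk : k ≠ 0)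
    (h : IsAlgebraic R (a ^ k)) : IsAlgebraic R a := by
  have h1 : IsAlgebraic R (a ^ k.natAbs) := by
    rcases Int.natAbs_eq k with h2 | h2
    · rw [h2, zpow_natCast] at h
      exact h
    · rw [h2, zpow_neg, zpow_natCast] at h
      have := h.inv
      rwa [inv_inv] at this
  exact IsAlgebraic.of_pow (Int.natAbs_pos.2 hk) h1

theorem pair_alg (x : ℂ) (hx : MeasT x) (D : ℕ) (a b : ℂ) (ha0 : a ≠ 0) (hb0 : b ≠ 0)
    (ha : AlgOver x a) (hb : AlgOver x b) (k l : ℤ) (hk : k ≠ 0) (hl : l ≠ 0)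
    (hab : Transcendental ℤ (a ^ l / b ^ k)) :
    ∃ κ : ℝ, 0 < κ ∧ ∀ t : ℂ, t ≠ 0 → ∃ c : ℝ, 0 < c ∧ PairM (a * t ^ k) (b * t ^ l) D κ c := by
  obtain ⟨a', ha'⟩ := exists_root a k hk
  obtain ⟨b', hb'⟩ := exists_root b l hl
  have ha'0 : a' ≠ 0 := by
    rintro rfl
    rw [zero_zpow _ hk] at ha'
    exact ha0 ha'.symm
  have hb'0 : b' ≠ 0 := by
    rintro rfl
    rw [zero_zpow _ hl] at hb'
    exact hb0 hb'.symm
  have haA : AlgOver x a' := alg_of_zpow a' k hk (by rw [ha']; exact ha)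
  have hbA : AlgOver x b' := alg_of_zpow b' l hl (by rw [hb']; exact hb)
  have hq : MeasT (b' / a') := by
    refine measT_of_isAlgebraic hx _ ?_ ?_
    · rw [div_eq_mul_inv]
      exact hbA.mul haA.inv
    · intro hcon
      apply hab
      have h1 := alg_zpow (R := ℤ) _ (-(k * l)) hcon
      have h2 : (b' / a') ^ (-(k * l)) = a ^ l / b ^ k := by
        rw [← ha', ← hb', zpow_neg, div_zpow, inv_div, ← zpow_mul, ← zpow_mul, mul_comm l k]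
      rwa [h2] at h1
  obtain ⟨κ, hκ, h⟩ := pair_pow _ hq D k l hk hl
  refine ⟨κ, hκ, fun t ht => ?_⟩
  obtain ⟨c, hc, hp⟩ := h (a' * t) (mul_ne_zero ha'0 ht)
  refine ⟨c, hc, ?_⟩
  have e1 : (a' * t) ^ k = a * t ^ k := by rw [mul_zpow, ha']
  have e2 : (b' / a' * (a' * t)) ^ l = b * t ^ l := by
    rw [← mul_assoc, div_mul_cancel₀ _ ha'0, mul_zpow, hb']
  rwa [e1, e2] at hp

/-- **sums** -/
theorem fam_add {ι : Type} [Fintype ι] (x : ℂ) (hx : MeasT x) (y : ι → ℂ) (hy : ∀ i, AlgOver x (y i))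
    (hyy : ∀ i j, i ≠ j → Transcendental ℤ (y i - y j)) (D : ℕ) :
    ∃ κ : ℝ, 0 < κ ∧ ∀ t : ℂ, ∃ C : ℝ, 0 < C ∧
      ∀ i j : ι, i ≠ j → ∀ P Q : ℤ[X], P ≠ 0 → Q ≠ 0 → P.natDegree ≤ D →
        Q.natDegree ≤ D → ∀ H : ℝ, (ht P : ℝ) ≤ H → (ht Q : ℝ) ≤ H →
        C * H ^ (-κ) ≤ max ‖aeval (y i + t) P‖ ‖aeval (y j + t) Q‖ := by
  obtain ⟨κ, hκ, h⟩ := fam_of_pairs (fun (i : ι) t => y i + t) (fun _ => True) x hx D (by
    intro i j hij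
    obtain ⟨κ, hκ, h⟩ := pair_add x hx D (y i) (y j) (hy i) (hy j) (hyy i j hij)
    exact ⟨κ, hκ, fun t _ => h t⟩)
  refine ⟨κ, hκ, fun t => ?_⟩
  obtain ⟨C, hC, h1, -⟩ := h t trivial
  exact ⟨C, hC, h1⟩

/-- **products** -/
theorem fam_mul {ι : Type} [Fintype ι] (x : ℂ) (hx : MeasT x) (y : ι → ℂ) (k : ι → ℤ)
    (hy : ∀ i, AlgOver x (y i)) (hy0 : ∀ i, y i ≠ 0) (hk : ∀ i, k i ≠ 0)
    (hyy : ∀ i j, i ≠ j → Transcendental ℤ (y i ^ k j / y j ^ k i)) (D : ℕ) :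
    ∃ κ : ℝ, 0 < κ ∧ ∀ t : ℂ, t ≠ 0 → ∃ C : ℝ, 0 < C ∧
      ∀ i j : ι, i ≠ j → ∀ P Q : ℤ[X], P ≠ 0 → Q ≠ 0 → P.natDegree ≤ D →
        Q.natDegree ≤ D → ∀ H : ℝ, (ht P : ℝ) ≤ H → (ht Q : ℝ) ≤ H →
        C * H ^ (-κ) ≤ max ‖aeval (y i * t ^ k i) P‖ ‖aeval (y j * t ^ k j) Q‖ := by
  obtain ⟨κ, hκ, h⟩ := fam_of_pairs (fun (i : ι) t => y i * t ^ k i) (fun t => t ≠ 0) x hx D (by
    intro i j hij
    exact pair_alg x hx D (y i) (y j) (hy0 i) (hy0 j) (hy i) (hy j) (k i) (k j) (hk i) (hk j)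
      (hyy i j hij))
  refine ⟨κ, hκ, fun t ht => ?_⟩
  obtain ⟨C, hC, h1, -⟩ := h t ht
  exact ⟨C, hC, h1⟩

end Pool.Agent.Q165.MonoAlg
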