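import Mathlib
import Pool.Agent.Q165.Bump

/-!
# Sums of modulated bumps (MP_45ee41)
-/

set_option autoImplicit false

open MeasureTheory Set Filter Topology Complex

namespace Pool.Agent.Q165.Car

/-- the test function -/
noncomputable def ff (N : ℕ) (R : ℕ → ℕ) (x : ℝ) : ℂ :=
  ∑ j ∈ Finset.range N, F (R j) ((R j : ℝ) * x)

theorem comp_smooth (R : ℝ) : ContDiff ℝ (⊤ : ℕ∞) fun u : ℝ => F R (R * u) :=
  (F_smooth R).comp (contDiff_const.mul contDiff_id)

theorem comp_zero {R : ℝ} (hR : 0 < R) {x : ℝ} (hx : 2 ≤ |x|) : F R (R * x) = 0 := by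
  refine F_zero hR ?_
  rw [abs_mul, abs_of_pos hR]
  nlinarith

theorem comp_supp {R : ℝ} (hR : 0 < R) : HasCompactSupport fun u : ℝ => F R (R * u) := by
  refine HasCompactSupport.intro (K := Metric.closedBall 0 2) (isCompact_closedBall _ _) ?_
  intro x hx
  rw [Metric.mem_closedBall, dist_zero_right, Real.norm_eq_abs, not_le] at hx
  exact comp_zero hR hx.le

theorem comp_nice {R : ℝ} (hR : 0 < R) : ∃ L, Nice (fun u : ℝ => F R (R * u)) L 2 :=
  nice_of_smooth (comp_smooth R) (comp_supp hR) fun _ hx => comp_zero hR hx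

theorem ff_smooth (N : ℕ) (R : ℕ → ℕ) : ContDiff ℝ (⊤ : ℕ∞) (ff N R) := by
  unfold ff
  exact ContDiff.sum fun j _ => comp_smooth (R j)

theorem ff_zero {N : ℕ} {R : ℕ → ℕ} (hR : ∀ j < N, 2 ≤ R j) {x : ℝ} (hx : 2 ≤ |x|) :
    ff N R x = 0 := by
  unfold ff
  refine Finset.sum_eq_zero fun j hj => comp_zero ?_ hx
  have := hR j (Finset.mem_range.1 hj)
  exact_mod_cast (by omega : 0 < R j)

theorem ff_supp {N : ℕ} {R : ℕ → ℕ} (hR : ∀ j < N, 2 ≤ R j) : HasCompactSupport (ff N R) := by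
  refine HasCompactSupport.intro (K := Metric.closedBall 0 2) (isCompact_closedBall _ _) ?_
  intro x hx
  rw [Metric.mem_closedBall, dist_zero_right, Real.norm_eq_abs, not_le] at hx
  exact ff_zero hR hx.le

theorem Tv_ff {N : ℕ} {R : ℕ → ℕ} (hR : ∀ j < N, 2 ≤ R j) (γ x : ℝ) :
    Tv (ff N R) γ x = ∑ j ∈ Finset.range N, Tv (fun u : ℝ => F (R j) ((R j : ℝ) * u)) γ x := by
  unfold Tv
  rw [← integral_finsetSum]
  · refine setIntegral_congr_fun measurableSet_Ioi fun t _ => ?_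
    simp only [D, ff]
    rw [← Finset.sum_sub_distrib, Finset.sum_div, Finset.mul_sum]
  · intro j hj
    have hRj : (0 : ℝ) < R j := by
      have := hR j (Finset.mem_range.1 hj)
      exact_mod_cast (by omega : 0 < R j)
    obtain ⟨L, hL⟩ := comp_nice hRj
    exact hL.integrable (measurable_pl γ) (fun t => (norm_pl γ t).le) x

/-- lower bound for the limit operator -/
theorem lower {K A γ x : ℝ} {N : ℕ} {R : ℕ → ℕ} (hK : 0 ≤ K) (hK' : ∀ x, |deriv g x| ≤ K)
    (hA : 1 ≤ A) (hR : ∀ j < N, 2 * A ≤ R j) (hR2 : ∀ j < N, 2 ≤ R j) (hγ : 0 ≤ γ) (hγ1 : γ ≤ 1)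
    (hx : |x| ≤ 1 / 2) (h1 : 2 * γ * CA A + 2 * ((4 + 3 * K) / A) ≤ 1 / 4)
    (hph : ∀ j < N, ∃ k : ℤ, |γ * Real.log (R j) - (R j : ℝ) * x - k * (2 * Real.pi)| ≤ 1 / 8) :
    (N : ℝ) / 2 ≤ ‖Tv (ff N R) γ x‖ := by
  have hc : 43 / 96 ≤ cA A := Osc.sine_integral A hA
  rw [Tv_ff hR2]
  set ζ : ℕ → ℂ := fun j => Complex.exp (I * (((R j : ℝ) * x - γ * Real.log (R j) : ℝ) : ℂ)) with hζ
  set W : ℕ → ℂ := fun j => Complex.exp (-(I * (((R j : ℝ) * x : ℝ) : ℂ))) *
    Tv (F (R j)) γ ((R j : ℝ) * x) with hW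
  have hterm : ∀ j < N, Tv (fun u : ℝ => F (R j) ((R j : ℝ) * u)) γ x = ζ j * W j := by
    intro j hj
    have hRj : (0 : ℝ) < R j := by
      have := hR2 j hj
      exact_mod_cast (by omega : 0 < R j)
    rw [Tv_scale _ hRj, hζ, hW]
    simp only
    rw [← mul_assoc, ← Complex.exp_add]
    congr 2
    push_cast
    ring
  have hWb : ∀ j < N, ‖W j + 2 * I * (cA A : ℂ)‖ ≤ 1 / 4 := by
    intro j hj
    have hRj : (0 : ℝ) < R j := by
      have := hR2 j hj
      exact_mod_cast (by omega : 0 < R j)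
    refine (main_piece hK hK' hA (hR j hj) hγ hγ1 ?_).trans h1
    rw [abs_mul, abs_of_pos hRj]
    nlinarith
  have hζb : ∀ j < N, ‖ζ j - 1‖ ≤ 1 / 8 := by
    intro j hj
    obtain ⟨k, hk⟩ := hph j hj
    have h2 : ζ j = Complex.exp (I * (((R j : ℝ) * x - γ * Real.log (R j) + k * (2 * Real.pi) : ℝ) : ℂ)) := by
      rw [hζ]
      simp only
      rw [Complex.exp_eq_exp_iff_exists_int]
      refine ⟨-k, ?_⟩
      push_cast
      ring
    rw [h2]
    refine (Real.norm_exp_I_mul_ofReal_sub_one_le).trans ?_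
    rw [Real.norm_eq_abs, ← abs_neg]
    refine le_trans (le_of_eq ?_) hk
    congr 1
    ring
  have hζn : ∀ j, ‖ζ j‖ = 1 := by
    intro j
    rw [hζ]
    simp only
    rw [mul_comm, Complex.norm_exp_ofReal_mul_I]
  have hcn : ‖2 * I * (cA A : ℂ)‖ = 2 * cA A := by
    rw [norm_mul, norm_mul, Complex.norm_I, Complex.norm_real, Real.norm_eq_abs,
      abs_of_nonneg (by linarith)]
    simp
  have hsum : ‖(∑ j ∈ Finset.range N, ζ j * W j) + N * (2 * I * (cA A : ℂ))‖ ≤
      N * (1 / 4 + 2 * cA A / 8) := by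
    have h3 : (∑ j ∈ Finset.range N, ζ j * W j) + N * (2 * I * (cA A : ℂ)) =
        ∑ j ∈ Finset.range N, (ζ j * (W j + 2 * I * (cA A : ℂ)) - (ζ j - 1) * (2 * I * (cA A : ℂ))) := by
      have h4 : (N : ℂ) * (2 * I * (cA A : ℂ)) = ∑ j ∈ Finset.range N, (2 * I * (cA A : ℂ)) := by
        rw [Finset.sum_const, Finset.card_range, nsmul_eq_mul]
      rw [h4, ← Finset.sum_add_distrib]
      refine Finset.sum_congr rfl fun j _ => ?_
      ring
    rw [h3]
    have h5 : ∀ j ∈ Finset.range N, ‖ζ j * (W j + 2 * I * (cA A : ℂ)) - (ζ j - 1) * (2 * I * (cA A : ℂ))‖ ≤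
        1 / 4 + 2 * cA A / 8 := by
      intro j hj
      have hj' := Finset.mem_range.1 hj
      refine (norm_sub_le _ _).trans ?_
      rw [norm_mul, norm_mul (ζ j - 1), hζn, one_mul, hcn]
      have h6 := hWb j hj'
      have h7 := mul_le_mul_of_nonneg_right (hζb j hj') (by linarith : 0 ≤ 2 * cA A)
      linarith
    refine (norm_sum_le_of_le _ h5).trans (le_of_eq ?_)
    rw [Finset.sum_const, Finset.card_range, nsmul_eq_mul]
  have h8 : ‖(N : ℂ) * (2 * I * (cA A : ℂ))‖ = N * (2 * cA A) := by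
    rw [norm_mul, hcn, Complex.norm_natCast]
  have h9 : ∑ j ∈ Finset.range N, Tv (fun u : ℝ => F (R j) ((R j : ℝ) * u)) γ x =
      ∑ j ∈ Finset.range N, ζ j * W j :=
    Finset.sum_congr rfl fun j hj => hterm j (Finset.mem_range.1 hj)
  rw [h9]
  have h10 := norm_sub_le_norm_add (∑ j ∈ Finset.range N, ζ j * W j) (N * (2 * I * (cA A : ℂ)))
  have h11 : ‖(N : ℂ) * (2 * I * (cA A : ℂ))‖ ≤ ‖(∑ j ∈ Finset.range N, ζ j * W j) +
      N * (2 * I * (cA A : ℂ))‖ + ‖∑ j ∈ Finset.range N, ζ j * W j‖ := by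
    have := norm_sub_le ((∑ j ∈ Finset.range N, ζ j * W j) + N * (2 * I * (cA A : ℂ)))
      (∑ j ∈ Finset.range N, ζ j * W j)
    rwa [add_sub_cancel_left] at this
  rw [h8] at h11
  have hN : (0 : ℝ) ≤ N := Nat.cast_nonneg N
  have h12 : (N : ℝ) * (43 / 96) ≤ N * cA A := mul_le_mul_of_nonneg_left hc hN
  nlinarith [h11, hsum, h12]

/-- orthogonality -/
theorem l2_exact {N : ℕ} {R : ℕ → ℕ} (hR : ∀ i j, i < j → j < N → R i < R j) :
    ∫ x in (-Real.pi)..Real.pi, ‖∑ j ∈ Finset.range N, Complex.exp (I * (((R j : ℝ) * x : ℝ) : ℂ))‖ ^ 2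
      = 2 * Real.pi * N := by
  have h1 : ∀ x : ℝ, ((‖∑ j ∈ Finset.range N, Complex.exp (I * (((R j : ℝ) * x : ℝ) : ℂ))‖ ^ 2 : ℝ) : ℂ) =
      ∑ j ∈ Finset.range N, ∑ k ∈ Finset.range N,
        Complex.exp ((I * (((R j : ℝ) - (R k : ℝ) : ℝ) : ℂ)) * x) := by
    intro x
    rw [← Complex.normSq_eq_norm_sq, ← Complex.mul_conj, map_sum, Finset.sum_mul_sum]
    refine Finset.sum_congr rfl fun j _ => Finset.sum_congr rfl fun k _ => ?_
    rw [← Complex.exp_conj, ← Complex.exp_add]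
    congr 1
    rw [map_mul, Complex.conj_I, Complex.conj_ofReal]
    push_cast
    ring
  have h2 : ((∫ x in (-Real.pi)..Real.pi, ‖∑ j ∈ Finset.range N,
      Complex.exp (I * (((R j : ℝ) * x : ℝ) : ℂ))‖ ^ 2 : ℝ) : ℂ) = ((2 * Real.pi * N : ℝ) : ℂ) := by
    rw [← intervalIntegral.integral_ofReal]
    simp_rw [h1]
    rw [intervalIntegral.integral_finsetSum]
    swap
    · intro j _
      exact Continuous.intervalIntegrable (by fun_prop) _ _
    have h3 : ∀ j ∈ Finset.range N, ∫ x in (-Real.pi)..Real.pi, ∑ k ∈ Finset.range N,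
        Complex.exp ((I * (((R j : ℝ) - (R k : ℝ) : ℝ) : ℂ)) * x) = 2 * Real.pi := by
      intro j hj
      rw [intervalIntegral.integral_finsetSum]
      swap
      · intro k _
        exact Continuous.intervalIntegrable (by fun_prop) _ _
      rw [Finset.sum_eq_single j]
      · simp
        ring
      · intro k hk hkj
        have hne : (R j : ℝ) - (R k : ℝ) ≠ 0 := by
          rcases lt_or_gt_of_ne hkj with h | h
          · have := hR k j h (Finset.mem_range.1 hj)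
            have h4 : (R k : ℝ) < R j := by exact_mod_cast this
            linarith
          · have := hR j k h (Finset.mem_range.1 hk)
            have h4 : (R j : ℝ) < R k := by exact_mod_cast this
            linarith
        have hne' : I * (((R j : ℝ) - (R k : ℝ) : ℝ) : ℂ) ≠ 0 :=
          mul_ne_zero I_ne_zero (by exact_mod_cast hne)
        rw [integral_exp_mul_complex hne']
        have h5 : Complex.exp (I * (((R j : ℝ) - (R k : ℝ) : ℝ) : ℂ) * (Real.pi : ℝ)) =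
            Complex.exp (I * (((R j : ℝ) - (R k : ℝ) : ℝ) : ℂ) * ((-Real.pi : ℝ) : ℂ)) := by
          rw [Complex.exp_eq_exp_iff_exists_int]
          refine ⟨(R j : ℤ) - (R k : ℤ), ?_⟩
          push_cast
          ring
        rw [h5, sub_self, zero_div]
      · intro h
        exact absurd hj h
    rw [Finset.sum_congr rfl h3, Finset.sum_const, Finset.card_range, nsmul_eq_mul]
    push_cast
    ring
  exact_mod_cast h2

theorem l2_bound {N : ℕ} {R : ℕ → ℕ} (hR2 : ∀ j < N, 2 ≤ R j)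
    (hR : ∀ i j, i < j → j < N → R i < R j) :
    ∫⁻ x, ‖ff N R x‖ₑ ^ 2 ≤ ENNReal.ofReal (2 * Real.pi * N) := by
  have hpi : (2 : ℝ) ≤ Real.pi := Real.two_le_pi
  set S : ℝ → ℂ := fun x => ∑ j ∈ Finset.range N, Complex.exp (I * (((R j : ℝ) * x : ℝ) : ℂ)) with hS
  have hSc : Continuous S := by
    rw [hS]
    fun_prop
  have h1 : ∀ x, ff N R x = (g x : ℂ) * S x := by
    intro x
    unfold ff
    rw [hS]
    simp only
    rw [Finset.mul_sum]
    refine Finset.sum_congr rfl fun j hj => ?_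
    have hRj : (R j : ℝ) ≠ 0 := by
      have := hR2 j (Finset.mem_range.1 hj)
      exact_mod_cast (by omega : R j ≠ 0)
    unfold F
    rw [mul_div_cancel_left₀ x hRj]
  have h2 : ∀ x, ‖ff N R x‖ₑ ^ 2 ≤ (Ioc (-Real.pi) Real.pi).indicator (fun x => ‖S x‖ₑ ^ 2) x := by
    intro x
    by_cases hx : x ∈ Ioc (-Real.pi) Real.pi
    · rw [indicator_of_mem hx]
      refine pow_le_pow_left' ?_ 2
      rw [h1, enorm_mul]
      have : ‖(g x : ℂ)‖ₑ ≤ 1 := by
        rw [← ofReal_norm_eq_enorm, Complex.norm_real, Real.norm_eq_abs]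
        exact ENNReal.ofReal_le_one.2 (abs_g x)
      calc ‖(g x : ℂ)‖ₑ * ‖S x‖ₑ ≤ 1 * ‖S x‖ₑ := mul_le_mul_left this _
        _ = ‖S x‖ₑ := one_mul _
    · rw [indicator_of_notMem hx]
      have h3 : 2 ≤ |x| := by
        by_contra hcon
        rw [not_le, abs_lt] at hcon
        exact hx ⟨by linarith [hcon.1], by linarith [hcon.2]⟩
      rw [ff_zero hR2 h3]
      simp
  refine (lintegral_mono h2).trans ?_
  rw [lintegral_indicator measurableSet_Ioc]
  have h4 : ∀ x, ‖S x‖ₑ ^ 2 = ENNReal.ofReal (‖S x‖ ^ 2) := by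
    intro x
    rw [ENNReal.ofReal_pow (norm_nonneg _), ofReal_norm_eq_enorm]
  simp_rw [h4]
  rw [← ofReal_integral_eq_lintegral_ofReal]
  · rw [← intervalIntegral.integral_of_le (by linarith), l2_exact hR]
  · exact (ContinuousOn.integrableOn_Icc (by fun_prop)).mono_set Ioc_subset_Icc_self
  · exact Eventually.of_forall fun x => by positivity

end Pool.Agent.Q165.Car
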